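import Pool.Agent.Lib.GBC.S.Sq

/-!
Module S.BadOne of GBC (block S, the sieve). The classes modulo `P ^ 2` of the polynomials of degree
`2 g + 1` in the square of `(P, s)`, `s` monic of degree `e ≤ g`.

PROOF. `E = (Fin e → R ⧸ P ^ 2) × (Fin e → R ⧸ P)`, `#E = Q ^ (2 e) Q ^ e`. For a class choose a
representative (`Function.surjInv Ideal.Quotient.mk_surjective`), `toP v = ∑ C (v i) X ^ i`. The map
`(v, (b₀, b₁)) ↦ v j + the class of the coefficient of x ^ j in toP b₀ + s * toP b₁` from `Bad × E` to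
`Fin (2 * g) → R ⧸ P ^ 2` (`Q ^ (4 g)` elements) is injective: if `(v, b)` and `(v', b')` have the same image, let `f`, `f'`
be the polynomials of `v`, `v'`. The polynomial `z = (f + toP b₀ + s toP b₁) - (f' + toP b₀' + s toP b₁')` has all
coefficients in `P ^ 2`: for `j < 2 g` by assumption; for `j ≥ 2 g` the coefficients of `f`, `f'` agree (monic of degree `2 g + 1`,
no term of degree `2 g`) and `toP b₀ + s toP b₁` has degree `< 2 e ≤ 2 g`. So `z` (`mem_sq_of_coeff`) and `f - f'` are in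
`(P, s) ^ 2`, hence `(toP b₀ - toP b₀') + s (toP b₁ - toP b₁')` too; by `sq_unique` `b₀ = b₀'` modulo `P ^ 2` and
`b₁ = b₁'` modulo `P`, so `b = b'` (the representatives are equal), and then `v = v'`.
-/

set_option autoImplicit false

open Polynomial

namespace Pool.Agent.GBC.Sv

variable {R : Type} [CommRing R]

private noncomputable def BadOne_toP {e : ℕ} (r : Fin e → R) : R[X] :=
  ∑ i : Fin e, C (r i) * X ^ (i : ℕ)

private lemma BadOne_degree {e : ℕ} (r : Fin e → R) :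
    (BadOne_toP r).degree < (e : WithBot ℕ) :=
  degree_sum_fin_lt r

private lemma BadOne_natDegree {e : ℕ} (he : 0 < e) (r : Fin e → R) :
    (BadOne_toP r).natDegree < e := by
  by_cases h0 : BadOne_toP r = 0
  · rw [h0]
    simpa using he
  · exact (natDegree_lt_iff_degree_lt h0).2 (BadOne_degree r)

private lemma BadOne_coeff {e : ℕ} (r : Fin e → R) (i : Fin e) :
    (BadOne_toP r).coeff (i : ℕ) = r i := by
  unfold BadOne_toP
  rw [finsetSum_coeff, Finset.sum_eq_single i]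
  · rw [coeff_C_mul_X_pow, if_pos rfl]
  · intro j _ hj
    rw [coeff_C_mul_X_pow, if_neg]
    intro h
    exact hj (Fin.ext h.symm)
  · intro h
    exact absurd (Finset.mem_univ i) h

private lemma BadOne_Bdeg {e g : ℕ} (he : e ≤ g) {s : R[X]} (hse : s.natDegree = e)
    (r r' : Fin e → R) (j : ℕ) (hj : 2 * g ≤ j) :
    (BadOne_toP r + s * BadOne_toP r').coeff j = 0 := by
  rcases Nat.eq_zero_or_pos e with he0 | he0
  · subst he0
    have h1 : BadOne_toP r = 0 := by
      unfold BadOne_toP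
      simp
    have h2 : BadOne_toP r' = 0 := by
      unfold BadOne_toP
      simp
    rw [h1, h2]
    simp
  · have h1 := BadOne_natDegree he0 r
    have h2 := BadOne_natDegree he0 r'
    apply coeff_eq_zero_of_natDegree_lt
    refine lt_of_le_of_lt (natDegree_add_le _ _) ?_
    refine max_lt (by omega) ?_
    refine lt_of_le_of_lt natDegree_mul_le ?_
    omega

private lemma BadOne_key {P : Ideal R} {g e : ℕ} (he : e ≤ g) {s : R[X]} (hs : s.Monic)
    (hse : s.natDegree = e) {f f' : R[X]} (hf : f.Monic) (hf' : f'.Monic)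
    (hd : f.natDegree = 2 * g + 1) (hd' : f'.natDegree = 2 * g + 1)
    (hc : f.coeff (2 * g) = 0) (hc' : f'.coeff (2 * g) = 0)
    (hm : f ∈ (P.map (C : R →+* R[X]) ⊔ Ideal.span {s}) ^ 2)
    (hm' : f' ∈ (P.map (C : R →+* R[X]) ⊔ Ideal.span {s}) ^ 2)
    (r0 r1 r0' r1' : Fin e → R)
    (h : ∀ j : ℕ, j < 2 * g → (f + (BadOne_toP r0 + s * BadOne_toP r1)).coeff j -
      (f' + (BadOne_toP r0' + s * BadOne_toP r1')).coeff j ∈ P ^ 2) :
    (∀ i, r0 i - r0' i ∈ P ^ 2) ∧ ∀ i, r1 i - r1' i ∈ P := by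
  have hz : ∀ j : ℕ, ((f + (BadOne_toP r0 + s * BadOne_toP r1)) -
      (f' + (BadOne_toP r0' + s * BadOne_toP r1'))).coeff j ∈ P ^ 2 := by
    intro j
    rw [coeff_sub]
    rcases lt_or_ge j (2 * g) with hj | hj
    · exact h j hj
    · rw [coeff_add f, coeff_add f', BadOne_Bdeg he hse r0 r1 j hj, BadOne_Bdeg he hse r0' r1' j hj,
        add_zero, add_zero]
      rcases Nat.lt_or_ge (2 * g + 1) j with hj1 | hj1
      · rw [coeff_eq_zero_of_natDegree_lt (by omega), coeff_eq_zero_of_natDegree_lt (by omega),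
          sub_zero]
        exact Ideal.zero_mem _
      · rcases Nat.lt_or_ge (2 * g) j with hj2 | hj2
        · have hj3 : j = 2 * g + 1 := by omega
          have e1 : f.coeff j = 1 := by
            rw [hj3, ← hd]
            exact hf
          have e2 : f'.coeff j = 1 := by
            rw [hj3, ← hd']
            exact hf'
          rw [e1, e2, sub_self]
          exact Ideal.zero_mem _
        · have hj3 : j = 2 * g := by omega
          rw [hj3, hc, hc', sub_zero]
          exact Ideal.zero_mem _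
  have hz2 := mem_sq_of_coeff (P := P) (s := s) hz
  have hz3 : (BadOne_toP r0 - BadOne_toP r0') + s * (BadOne_toP r1 - BadOne_toP r1') ∈
      (P.map (C : R →+* R[X]) ⊔ Ideal.span {s}) ^ 2 := by
    have e1 : (BadOne_toP r0 - BadOne_toP r0') + s * (BadOne_toP r1 - BadOne_toP r1') =
        ((f + (BadOne_toP r0 + s * BadOne_toP r1)) -
          (f' + (BadOne_toP r0' + s * BadOne_toP r1'))) - (f - f') := by ring
    rw [e1]
    exact Ideal.sub_mem _ hz2 (Ideal.sub_mem _ hm hm')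
  have hdg : ∀ r r' : Fin e → R, (BadOne_toP r - BadOne_toP r').degree < (e : WithBot ℕ) :=
    fun r r' => lt_of_le_of_lt (degree_sub_le _ _) (max_lt (BadOne_degree r) (BadOne_degree r'))
  obtain ⟨h0, h1⟩ := sq_unique hs hse (hdg r0 r0') (hdg r1 r1') hz3
  refine ⟨fun i => ?_, fun i => ?_⟩
  · have := h0 (i : ℕ)
    rwa [coeff_sub, BadOne_coeff, BadOne_coeff] at this
  · have := h1 (i : ℕ)
    rwa [coeff_sub, BadOne_coeff, BadOne_coeff] at this

theorem card_bad_one {P : Ideal R} {Q g e : ℕ} (hQ : Nat.card (R ⧸ P) = Q)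
    (hQ2 : Nat.card (R ⧸ P ^ 2) = Q ^ 2) (hQ0 : 1 ≤ Q) (he : e ≤ g) {s : R[X]} (hs : s.Monic)
    (hse : s.natDegree = e) :
    Nat.card {v : Fin (2 * g) → R ⧸ P ^ 2 // ∃ f : R[X], f.Monic ∧ f.natDegree = 2 * g + 1 ∧
      f.coeff (2 * g) = 0 ∧ f ∈ (P.map (C : R →+* R[X]) ⊔ Ideal.span {s}) ^ 2 ∧
      ∀ j, v j = Ideal.Quotient.mk (P ^ 2) (f.coeff j)} * Q ^ (3 * e) ≤ Q ^ (4 * g) := by
  classical
  have hQp : Q ≠ 0 := by omega
  have : Finite (R ⧸ P) := Nat.finite_of_card_ne_zero (by rw [hQ]; exact hQp)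
  have : Finite (R ⧸ P ^ 2) := Nat.finite_of_card_ne_zero (by rw [hQ2]; exact pow_ne_zero _ hQp)
  set Bad := {v : Fin (2 * g) → R ⧸ P ^ 2 // ∃ f : R[X], f.Monic ∧ f.natDegree = 2 * g + 1 ∧
      f.coeff (2 * g) = 0 ∧ f ∈ (P.map (C : R →+* R[X]) ⊔ Ideal.span {s}) ^ 2 ∧
      ∀ j, v j = Ideal.Quotient.mk (P ^ 2) (f.coeff j)} with hBad
  obtain ⟨σ2, hσ2⟩ : ∃ σ : R ⧸ P ^ 2 → R, ∀ a, Ideal.Quotient.mk (P ^ 2) (σ a) = a :=
    ⟨Function.surjInv Ideal.Quotient.mk_surjective,
      Function.surjInv_eq Ideal.Quotient.mk_surjective⟩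
  obtain ⟨σ1, hσ1⟩ : ∃ σ : R ⧸ P → R, ∀ a, Ideal.Quotient.mk P (σ a) = a :=
    ⟨Function.surjInv Ideal.Quotient.mk_surjective,
      Function.surjInv_eq Ideal.Quotient.mk_surjective⟩
  let F : Bad × ((Fin e → R ⧸ P ^ 2) × (Fin e → R ⧸ P)) → (Fin (2 * g) → R ⧸ P ^ 2) :=
    fun x j => x.1.1 j + Ideal.Quotient.mk (P ^ 2)
      ((BadOne_toP (fun i => σ2 (x.2.1 i)) + s * BadOne_toP (fun i => σ1 (x.2.2 i))).coeff j)
  have hF : Function.Injective F := by
    rintro ⟨v, b0, b1⟩ ⟨v', b0', b1'⟩ hxy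
    obtain ⟨f, hf, hd, hc, hm, hv⟩ := v.2
    obtain ⟨f', hf', hd', hc', hm', hv'⟩ := v'.2
    have hj : ∀ j : Fin (2 * g), v.1 j + Ideal.Quotient.mk (P ^ 2)
        ((BadOne_toP (fun i => σ2 (b0 i)) + s * BadOne_toP (fun i => σ1 (b1 i))).coeff j) =
        v'.1 j + Ideal.Quotient.mk (P ^ 2)
        ((BadOne_toP (fun i => σ2 (b0' i)) + s * BadOne_toP (fun i => σ1 (b1' i))).coeff j) :=
      fun j => congrFun hxy j
    have hkey := BadOne_key he hs hse hf hf' hd hd' hc hc' hm hm'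
      (fun i => σ2 (b0 i)) (fun i => σ1 (b1 i)) (fun i => σ2 (b0' i)) (fun i => σ1 (b1' i))
      (by
        intro j hjg
        rw [← Ideal.Quotient.eq_zero_iff_mem, map_sub, coeff_add f, coeff_add f', map_add,
          map_add]
        have h1 := hj ⟨j, hjg⟩
        have h2 := hv ⟨j, hjg⟩
        have h3 := hv' ⟨j, hjg⟩
        simp only at h1 h2 h3
        rw [← h2, ← h3, h1, sub_self])
    have hb0 : b0 = b0' := by
      funext i
      rw [← hσ2 (b0 i), ← hσ2 (b0' i)]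
      exact Ideal.Quotient.eq.2 (hkey.1 i)
    have hb1 : b1 = b1' := by
      funext i
      rw [← hσ1 (b1 i), ← hσ1 (b1' i)]
      exact Ideal.Quotient.eq.2 (hkey.2 i)
    subst hb0 hb1
    have hvv : v = v' := by
      apply Subtype.ext
      funext j
      exact add_right_cancel (hj j)
    rw [hvv]
  have hcard := Nat.card_le_card_of_injective F hF
  rw [Nat.card_prod, Nat.card_prod, Nat.card_fun, Nat.card_fun, Nat.card_fun, hQ, hQ2,
    Nat.card_fin, Nat.card_fin] at hcard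
  calc Nat.card Bad * Q ^ (3 * e) = Nat.card Bad * ((Q ^ 2) ^ e * Q ^ e) := by
        rw [← pow_mul, ← pow_add]
        congr 2
        ring
    _ ≤ (Q ^ 2) ^ (2 * g) := hcard
    _ = Q ^ (4 * g) := by
        rw [← pow_mul]
        congr 1
        ring

end Pool.Agent.GBC.Sv
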