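import Pool.Agent.Lib.GBC.S.BadOne

/-!
Module S.BadSum of GBC (block S, the sieve). The classes modulo `P ^ 2` of the polynomials which are not
regular at `P`.

PROOF. If `f` is not regular at `P` then `f ∈ (P, p) ^ 2`, `p` monic of degree `e ≥ 1`, and `e ≤ g` (`sq_natDegree`).
Let `s` be the polynomial with leading coefficient `1` whose other coefficients are the chosen representatives of the
classes modulo `P` of the coefficients of `p`: `p - s` has coefficients in `P`, so `f ∈ (P, s) ^ 2` (`sq_congr`). So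
the set of bad classes is covered by the sets of `card_bad_one` for `e ∈ [1, g]` and the `Q ^ e` polynomials `s`
(indexed by `Fin e → R ⧸ P`). Hence `#bad ≤ ∑_e Q ^ e * Q ^ (4 g) / Q ^ (3 e)`, and
`∑_(e ≥ 1) Q ^ (- 2 e) ≤ Q ^ (-2) / (1 - Q ^ (-2)) ≤ (4 / 3) Q ^ (-2)` for `Q ≥ 2`. (Work in `ℝ`.)
-/

set_option autoImplicit false

open Polynomial

namespace Pool.Agent.GBC.Sv

variable {R : Type} [CommRing R]

/-- the classes of the polynomials in the square of `(P, s)` -/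
private def BadSum_set (P : Ideal R) (g : ℕ) (s : R[X]) : Set (Fin (2 * g) → R ⧸ P ^ 2) :=
  {v | ∃ f : R[X], f.Monic ∧ f.natDegree = 2 * g + 1 ∧
      f.coeff (2 * g) = 0 ∧ f ∈ (P.map (C : R →+* R[X]) ⊔ Ideal.span {s}) ^ 2 ∧
      ∀ j, v j = Ideal.Quotient.mk (P ^ 2) (f.coeff j)}

/-- the polynomial of degree `e` with the given coefficients modulo `P` -/
private noncomputable def BadSum_pol (P : Ideal R) (e : ℕ) (b : Fin e → R ⧸ P) : R[X] :=
  X ^ e + ∑ i : Fin e, C (Function.surjInv Ideal.Quotient.mk_surjective (b i)) * X ^ (i : ℕ)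

private theorem BadSum_degree (P : Ideal R) (e : ℕ) (b : Fin e → R ⧸ P) :
    (∑ i : Fin e, C (Function.surjInv Ideal.Quotient.mk_surjective (b i)) * X ^ (i : ℕ) :
      R[X]).degree < (e : WithBot ℕ) := by
  rw [Polynomial.degree_lt_iff_coeff_zero]
  intro m hm
  rw [Polynomial.finsetSum_coeff]
  refine Finset.sum_eq_zero fun i _ => ?_
  rw [Polynomial.coeff_C_mul, Polynomial.coeff_X_pow, if_neg, mul_zero]
  have := i.2
  omega

private theorem BadSum_monic [Nontrivial R] (P : Ideal R) (e : ℕ) (b : Fin e → R ⧸ P) :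
    (BadSum_pol P e b).Monic :=
  Polynomial.monic_X_pow_add (BadSum_degree P e b)

private theorem BadSum_natDegree [Nontrivial R] (P : Ideal R) (e : ℕ) (b : Fin e → R ⧸ P) :
    (BadSum_pol P e b).natDegree = e := by
  unfold BadSum_pol
  rw [Polynomial.natDegree_eq_of_degree_eq_some]
  rw [Polynomial.degree_add_eq_left_of_degree_lt, Polynomial.degree_X_pow]
  rw [Polynomial.degree_X_pow]
  exact BadSum_degree P e b

private theorem BadSum_coeff (P : Ideal R) (e : ℕ) (b : Fin e → R ⧸ P) (i : Fin e) :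
    Ideal.Quotient.mk P ((BadSum_pol P e b).coeff i) = b i := by
  unfold BadSum_pol
  rw [Polynomial.coeff_add, Polynomial.coeff_X_pow, if_neg (by have := i.2; omega), zero_add,
    Polynomial.finsetSum_coeff, Finset.sum_eq_single i]
  · rw [Polynomial.coeff_C_mul, Polynomial.coeff_X_pow, if_pos rfl, mul_one]
    exact Function.surjInv_eq _ _
  · intro j _ hj
    rw [Polynomial.coeff_C_mul, Polynomial.coeff_X_pow, if_neg, mul_zero]
    intro h
    exact hj (Fin.ext h.symm)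
  · intro h
    exact absurd (Finset.mem_univ i) h

private theorem BadSum_cover [Nontrivial R] {P : Ideal R} (hP : P.IsPrime) (g : ℕ)
    {v : Fin (2 * g) → R ⧸ P ^ 2} (h : ∃ f : R[X], f.Monic ∧ f.natDegree = 2 * g + 1 ∧
      f.coeff (2 * g) = 0 ∧ ¬ RegI P f ∧ ∀ j, v j = Ideal.Quotient.mk (P ^ 2) (f.coeff j)) :
    ∃ e ∈ Finset.Icc 1 g, ∃ b : Fin e → R ⧸ P, v ∈ BadSum_set P g (BadSum_pol P e b) := by
  obtain ⟨f, hf, hfd, hft, hreg, hv⟩ := h
  unfold RegI at hreg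
  push Not at hreg
  obtain ⟨p, hp, hp1, hfp⟩ := hreg
  have h1 := sq_natDegree hP hp hf hfp
  refine ⟨p.natDegree, Finset.mem_Icc.2 ⟨hp1, by omega⟩,
    fun i => Ideal.Quotient.mk P (p.coeff i), f, hf, hfd, hft, ?_, hv⟩
  rw [← sq_congr (p := p)]
  · exact hfp
  · intro i
    rw [← Ideal.Quotient.eq_zero_iff_mem, Polynomial.coeff_sub, map_sub]
    rcases lt_trichotomy i p.natDegree with hi | hi | hi
    · rw [BadSum_coeff P p.natDegree (fun i => Ideal.Quotient.mk P (p.coeff i)) ⟨i, hi⟩, sub_self]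
    · have h2 : (BadSum_pol P p.natDegree (fun i => Ideal.Quotient.mk P (p.coeff i))).coeff i = 1 := by
        have h3 := BadSum_monic P p.natDegree (fun i => Ideal.Quotient.mk P (p.coeff i))
        have h4 := BadSum_natDegree P p.natDegree (fun i => Ideal.Quotient.mk P (p.coeff i))
        rw [Polynomial.Monic, Polynomial.leadingCoeff, h4] at h3
        rw [hi]
        exact h3
      rw [h2, hi]
      have h5 : p.coeff p.natDegree = 1 := hp
      rw [h5, sub_self]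
    · rw [Polynomial.coeff_eq_zero_of_natDegree_lt hi, Polynomial.coeff_eq_zero_of_natDegree_lt
        (by rw [BadSum_natDegree]; exact hi), sub_self]

private theorem BadSum_geom {x : ℝ} (hx0 : 0 ≤ x) (hx : x ≤ 1 / 4) (g : ℕ) :
    ∑ e ∈ Finset.Icc 1 g, x ^ e ≤ 2 * x := by
  have h1 : ∑ e ∈ Finset.Icc 1 g, x ^ e = x * ∑ e ∈ Finset.range g, x ^ e := by
    rw [Finset.mul_sum, ← Finset.Ico_add_one_right_eq_Icc, Finset.sum_Ico_eq_sum_range]
    refine Finset.sum_congr (by simp) fun i _ => ?_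
    rw [pow_add, pow_one]
  have h2 := geom_sum_mul_neg x g
  have h3 : 0 ≤ x ^ g := pow_nonneg hx0 g
  have h4 : ∑ e ∈ Finset.range g, x ^ e ≤ 2 := by
    have h5 : 0 ≤ ∑ e ∈ Finset.range g, x ^ e := Finset.sum_nonneg fun i _ => pow_nonneg hx0 i
    nlinarith
  rw [h1]
  nlinarith

theorem card_bad_classes {P : Ideal R} (hP : P.IsPrime) {Q g : ℕ} (hQ : Nat.card (R ⧸ P) = Q)
    (hQ2 : Nat.card (R ⧸ P ^ 2) = Q ^ 2) (hQ0 : 2 ≤ Q) :
    Nat.card {v : Fin (2 * g) → R ⧸ P ^ 2 // ∃ f : R[X], f.Monic ∧ f.natDegree = 2 * g + 1 ∧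
      f.coeff (2 * g) = 0 ∧ ¬ RegI P f ∧ ∀ j, v j = Ideal.Quotient.mk (P ^ 2) (f.coeff j)} *
      Q ^ 2 ≤ 2 * Q ^ (4 * g) := by
  classical
  have hnt : Nontrivial R := by
    by_contra hcon
    rw [not_nontrivial_iff_subsingleton] at hcon
    exact hP.ne_top (Subsingleton.elim _ _)
  have hfin2 : Finite (R ⧸ P ^ 2) := Nat.finite_of_card_ne_zero (by rw [hQ2]; positivity)
  have hfin1 : Finite (R ⧸ P) := Nat.finite_of_card_ne_zero (by rw [hQ]; omega)
  have _ := Fintype.ofFinite (R ⧸ P ^ 2)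
  have _ := Fintype.ofFinite (R ⧸ P)
  have hcardP : Fintype.card (R ⧸ P) = Q := by rw [← Nat.card_eq_fintype_card, hQ]
  have hQR : (0 : ℝ) < Q := by exact_mod_cast (by omega : 0 < Q)
  have hone : ∀ e ∈ Finset.Icc 1 g, ∀ b : Fin e → R ⧸ P,
      (((Finset.univ.filter fun v => v ∈ BadSum_set P g (BadSum_pol P e b)).card : ℕ) : ℝ) ≤
        (Q : ℝ) ^ (4 * g) / (Q : ℝ) ^ (3 * e) := by
    intro e he b
    rw [Finset.mem_Icc] at he
    have h1 := card_bad_one (P := P) (g := g) (e := e) hQ hQ2 (by omega) he.2 (BadSum_monic P e b)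
      (BadSum_natDegree P e b)
    rw [Nat.card_eq_fintype_card, Fintype.card_subtype] at h1
    rw [le_div_iff₀ (pow_pos hQR _)]
    have h2 : (Finset.univ.filter fun v => v ∈ BadSum_set P g (BadSum_pol P e b)).card *
        Q ^ (3 * e) ≤ Q ^ (4 * g) := by
      refine le_trans (le_of_eq ?_) h1
      congr 2
    exact_mod_cast h2
  have hcover : (Finset.univ.filter fun v : Fin (2 * g) → R ⧸ P ^ 2 =>
      ∃ f : R[X], f.Monic ∧ f.natDegree = 2 * g + 1 ∧
      f.coeff (2 * g) = 0 ∧ ¬ RegI P f ∧ ∀ j, v j = Ideal.Quotient.mk (P ^ 2) (f.coeff j)) ⊆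
      (Finset.Icc 1 g).biUnion fun e => (Finset.univ : Finset (Fin e → R ⧸ P)).biUnion fun b =>
        Finset.univ.filter fun v => v ∈ BadSum_set P g (BadSum_pol P e b) := by
    intro v hv
    rw [Finset.mem_filter] at hv
    obtain ⟨e, he, b, hb⟩ := BadSum_cover hP g hv.2
    rw [Finset.mem_biUnion]
    refine ⟨e, he, ?_⟩
    rw [Finset.mem_biUnion]
    exact ⟨b, Finset.mem_univ _, Finset.mem_filter.2 ⟨Finset.mem_univ _, hb⟩⟩
  have hle : ((Finset.univ.filter fun v : Fin (2 * g) → R ⧸ P ^ 2 =>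
      ∃ f : R[X], f.Monic ∧ f.natDegree = 2 * g + 1 ∧
      f.coeff (2 * g) = 0 ∧ ¬ RegI P f ∧
        ∀ j, v j = Ideal.Quotient.mk (P ^ 2) (f.coeff j)).card : ℝ) ≤
      (Q : ℝ) ^ (4 * g) * ∑ e ∈ Finset.Icc 1 g, (((Q : ℝ) ^ 2)⁻¹) ^ e := by
    calc ((Finset.univ.filter fun v : Fin (2 * g) → R ⧸ P ^ 2 =>
      ∃ f : R[X], f.Monic ∧ f.natDegree = 2 * g + 1 ∧
      f.coeff (2 * g) = 0 ∧ ¬ RegI P f ∧
        ∀ j, v j = Ideal.Quotient.mk (P ^ 2) (f.coeff j)).card : ℝ)
        ≤ ((∑ e ∈ Finset.Icc 1 g, ∑ b : Fin e → R ⧸ P,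
          (Finset.univ.filter fun v => v ∈ BadSum_set P g (BadSum_pol P e b)).card : ℕ) : ℝ) := by
          exact_mod_cast (Finset.card_le_card hcover).trans (Finset.card_biUnion_le.trans
            (Finset.sum_le_sum fun e _ => Finset.card_biUnion_le))
      _ ≤ ∑ e ∈ Finset.Icc 1 g, ∑ _b : Fin e → R ⧸ P, (Q : ℝ) ^ (4 * g) / (Q : ℝ) ^ (3 * e) := by
          push_cast
          exact Finset.sum_le_sum fun e he => Finset.sum_le_sum fun b _ => hone e he b
      _ = (Q : ℝ) ^ (4 * g) * ∑ e ∈ Finset.Icc 1 g, (((Q : ℝ) ^ 2)⁻¹) ^ e := by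
          rw [Finset.mul_sum]
          refine Finset.sum_congr rfl fun e _ => ?_
          rw [Finset.sum_const, Finset.card_univ, Fintype.card_fun, hcardP, Fintype.card_fin,
            nsmul_eq_mul]
          push_cast
          have h1 : (Q : ℝ) ^ (3 * e) = (Q : ℝ) ^ e * ((Q : ℝ) ^ 2) ^ e := by
            rw [← pow_mul, ← pow_add]
            congr 1
            ring
          rw [h1, inv_pow]
          have h2 : (Q : ℝ) ^ e ≠ 0 := pow_ne_zero _ hQR.ne'
          have h3 : ((Q : ℝ) ^ 2) ^ e ≠ 0 := pow_ne_zero _ (pow_ne_zero _ hQR.ne')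
          field_simp
  have hgeom := BadSum_geom (x := ((Q : ℝ) ^ 2)⁻¹) (by positivity) (by
    have h1 : (2 : ℝ) ≤ Q := by exact_mod_cast hQ0
    rw [inv_le_comm₀ (by positivity) (by norm_num)]
    nlinarith) g
  rw [Nat.card_eq_fintype_card, Fintype.card_subtype]
  have hfinal : ((Finset.univ.filter fun v : Fin (2 * g) → R ⧸ P ^ 2 =>
      ∃ f : R[X], f.Monic ∧ f.natDegree = 2 * g + 1 ∧
      f.coeff (2 * g) = 0 ∧ ¬ RegI P f ∧
        ∀ j, v j = Ideal.Quotient.mk (P ^ 2) (f.coeff j)).card : ℝ) * (Q : ℝ) ^ 2 ≤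
      2 * (Q : ℝ) ^ (4 * g) := by
    have h1 : (0 : ℝ) < (Q : ℝ) ^ 2 := by positivity
    have h2 : (0 : ℝ) < (Q : ℝ) ^ (4 * g) := by positivity
    calc _ ≤ ((Q : ℝ) ^ (4 * g) * (2 * ((Q : ℝ) ^ 2)⁻¹)) * (Q : ℝ) ^ 2 := by
          refine mul_le_mul_of_nonneg_right (hle.trans ?_) h1.le
          exact mul_le_mul_of_nonneg_left hgeom h2.le
      _ = 2 * (Q : ℝ) ^ (4 * g) := by
          field_simp
  exact_mod_cast hfinal

end Pool.Agent.GBC.Sv
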