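import Pool.Agent.Lib.GBC.Q.Coset
import Pool.Agent.Lib.HYP.S.Base

/-!
Module S.Base of GBC (block S, the sieve). The family without the condition of regularity.

PROOFS. `famEquiv`: the coefficients `f_j`, `j < 2 g`; inverse: `X ^ (2 g + 1) + ∑ C (v j) X ^ j` (compare
`HYP.Sv.topF_equiv`). The coefficients `2 g` and `2 g + 1` are `0` and `1`; `lead` holds for them because
`φ` has the same coefficients (`D.monic`, `D.deg`, `D.tr`), `cong` for all `j ≥ 2 g` because `f₀` is monic of degree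
`2 g + 1` without term of degree `2 g`.
`sum_exp`: compare `HYP.Sv.sum_exp`.
`finite_fam₀`: `famEquiv`, `finite_cos`.
`card_fam₀_ge`: `C₁` from `finrank_IL_ge`, `C = 2 g d (1 + C₁)`; `y₀` from `exists_coset` for `N`, `m₀ = y₀ + 1`: for `m ≥ m₀` and
`j < 2 g` `2 m (2 g + 1 - j) - 1 ≥ 4 m - 1 ≥ y₀`, so the factor `j` has exactly `q ^ dim (IL N (2 m (2 g + 1 - j) - 1))`
elements (`card_cos_eq`), `dim ≥ 2 d m (2 g + 1 - j) - d (1 + C₁) - degI N`. Take the product.
`fam₀_add_C`, `fam₀_sub_C`: only the coefficient of `x ^ 0` changes (`g ≥ 1`).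
`coeff_mem_M`: `φ_j ∈ B`, so `t ^ (2 m (n - j)) φ_j ∈ M (2 m (n - j))` (`zpow_mul_mem_M`, `mem_M_zero`), and the difference is in
the smaller `M (2 m (n - j) - 1)` (`M_mono`). For `j > 2 g + 1` the coefficient is `0`.
-/

set_option autoImplicit false

open Polynomial

namespace Pool.Agent.GBC.Sv

open Pool.Agent.BSDP Pool.Agent.BSDFF Pool.Agent.HYP Pool.Agent.GBC.Geo

variable {k K : Type} [Field k] [Field K] [Algebra k K] {G : Geo k K} {g : ℕ}

/-- `2 m (2 g + 1 - j) - 1` -/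
def yy (g m j : ℕ) : ℤ := 2 * m * (2 * g + 1 - j : ℕ) - 1

/-- The centre of the coefficient of `x ^ j`. -/
def cen (D : Data G g) (m j : ℕ) : K := G.t ^ (2 * m * (2 * g + 1 - j)) * (D.φ.coeff j : K)

private noncomputable def Base_toP {R : Type} [CommRing R] {e : ℕ} (v : Fin e → R) : R[X] :=
  ∑ i : Fin e, C (v i) * X ^ (i : ℕ)

private theorem Base_toP_coeff {R : Type} [CommRing R] {e : ℕ} (v : Fin e → R) (j : ℕ) :
    (Base_toP v).coeff j = if h : j < e then v ⟨j, h⟩ else 0 := by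
  unfold Base_toP
  rw [finsetSum_coeff]
  simp only [coeff_C_mul, coeff_X_pow]
  by_cases h : j < e
  · rw [dif_pos h, Finset.sum_eq_single (⟨j, h⟩ : Fin e)]
    · simp
    · intro b _ hb
      rw [if_neg, mul_zero]
      intro h2
      exact hb (Fin.ext h2.symm)
    · intro h2
      exact absurd (Finset.mem_univ _) h2
  · rw [dif_neg h]
    refine Finset.sum_eq_zero fun i _ => ?_
    rw [if_neg, mul_zero]
    intro h2
    exact h (h2 ▸ i.2)

private theorem Base_toP_degree_lt {R : Type} [CommRing R] {e : ℕ} (v : Fin e → R) :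
    (Base_toP v).degree < (e : WithBot ℕ) := by
  rw [degree_lt_iff_coeff_zero]
  intro j hj
  rw [Base_toP_coeff, dif_neg (by omega)]

private theorem Base_top (D : Data G g) : D.φ.coeff (2 * g + 1) = 1 := by
  have h := D.monic.coeff_natDegree
  rwa [D.deg] at h

private theorem Base_top₀ (D : Data G g) : D.f₀.coeff (2 * g + 1) = 1 := by
  have h := D.monic₀.coeff_natDegree
  rwa [D.deg₀] at h

private theorem Base_inv (D : Data G g) (m : ℕ)
    (v : ∀ j : Fin (2 * g), G.Cos D.N (D.f₀.coeff j) (cen D m j) (yy g m j)) :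
    Fam₀ D m (X ^ (2 * g + 1) + Base_toP (fun j => (v j).1)) := by
  have hd := Base_toP_degree_lt (fun j => (v j).1)
  have hlt : (Base_toP (fun j => (v j).1)).degree < ((2 * g + 1 : ℕ) : WithBot ℕ) :=
    lt_trans hd (by exact_mod_cast Nat.lt_succ_self _)
  have hc : ∀ j < 2 * g, (X ^ (2 * g + 1) + Base_toP (fun j => (v j).1) : G.A[X]).coeff j =
      if h : j < 2 * g then (v ⟨j, h⟩).1 else 0 := by
    intro j hj
    rw [coeff_add, Base_toP_coeff, coeff_X_pow, if_neg (by omega), zero_add]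
  have hm : (X ^ (2 * g + 1) + Base_toP (fun j => (v j).1) : G.A[X]).Monic :=
    monic_X_pow_add hlt
  have hn : (X ^ (2 * g + 1) + Base_toP (fun j => (v j).1) : G.A[X]).natDegree = 2 * g + 1 := by
    rw [natDegree_add_eq_left_of_degree_lt, natDegree_X_pow]
    rw [degree_X_pow]
    exact hlt
  have ht : (X ^ (2 * g + 1) + Base_toP (fun j => (v j).1) : G.A[X]).coeff (2 * g) = 0 := by
    rw [coeff_add, Base_toP_coeff, coeff_X_pow, if_neg (by omega), dif_neg (by omega), zero_add]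
  have ht1 : (X ^ (2 * g + 1) + Base_toP (fun j => (v j).1) : G.A[X]).coeff (2 * g + 1) = 1 := by
    have := hm.coeff_natDegree
    rwa [hn] at this
  refine ⟨hm, hn, ht, ?_, ?_⟩
  · intro j hj
    rcases Nat.lt_or_ge j (2 * g) with h | h
    · rw [hc j h, dif_pos h]
      exact (v ⟨j, h⟩).2.2
    · rcases Nat.eq_or_lt_of_le h with h2 | h2
      · rw [← h2, ht, D.tr]
        have e : ((0 : G.A) : K) - G.t ^ (2 * m * (2 * g + 1 - 2 * g)) * ((0 : G.B) : K) = 0 := by
          simp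
        rw [e]
        exact Submodule.zero_mem _
      · have h3 : j = 2 * g + 1 := by omega
        rw [h3, ht1, Base_top D]
        have e : ((1 : G.A) : K) - G.t ^ (2 * m * (2 * g + 1 - (2 * g + 1))) * ((1 : G.B) : K) =
            0 := by
          simp
        rw [e]
        exact Submodule.zero_mem _
  · intro j
    rcases Nat.lt_or_ge j (2 * g) with h | h
    · rw [hc j h, dif_pos h]
      exact (v ⟨j, h⟩).2.1
    · rcases Nat.eq_or_lt_of_le h with h2 | h2
      · rw [← h2, ht, D.tr₀, sub_zero]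
        exact D.N.zero_mem
      · rcases Nat.eq_or_lt_of_le h2 with h3 | h3
        · rw [← h3, Nat.succ_eq_add_one, ht1, Base_top₀ D, sub_self]
          exact D.N.zero_mem
        · rw [coeff_eq_zero_of_natDegree_lt (by rw [hn]; exact h3),
            coeff_eq_zero_of_natDegree_lt (by rw [D.deg₀]; exact h3), sub_zero]
          exact D.N.zero_mem

private noncomputable def Base_equiv (D : Data G g) (m : ℕ) : {f : G.A[X] // Fam₀ D m f} ≃
    (∀ j : Fin (2 * g), G.Cos D.N (D.f₀.coeff j) (cen D m j) (yy g m j)) where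
  toFun f j := ⟨f.1.coeff j, f.2.cong j, f.2.lead j (by omega)⟩
  invFun v := ⟨X ^ (2 * g + 1) + Base_toP (fun j => (v j).1), Base_inv D m v⟩
  left_inv f := by
    refine Subtype.ext ?_
    ext1 j
    show (X ^ (2 * g + 1) + Base_toP (fun j : Fin (2 * g) => f.1.coeff j) : G.A[X]).coeff j =
      f.1.coeff j
    rw [coeff_add, Base_toP_coeff, coeff_X_pow]
    rcases Nat.lt_or_ge j (2 * g) with h | h
    · rw [if_neg (by omega), dif_pos h, zero_add]
    · rw [dif_neg (by omega), add_zero]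
      rcases Nat.eq_or_lt_of_le h with h2 | h2
      · rw [if_neg (by omega), ← h2, f.2.tr]
      · rcases Nat.eq_or_lt_of_le h2 with h3 | h3
        · rw [if_pos (by omega)]
          have h4 := f.2.monic.coeff_natDegree
          rw [f.2.deg] at h4
          rw [← h3, Nat.succ_eq_add_one, h4]
        · rw [if_neg (by omega), coeff_eq_zero_of_natDegree_lt]
          rw [f.2.deg]
          omega
  right_inv v := by
    funext j
    refine Subtype.ext ?_
    show (X ^ (2 * g + 1) + Base_toP (fun j : Fin (2 * g) => (v j).1) : G.A[X]).coeff j = (v j).1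
    rw [coeff_add, Base_toP_coeff, coeff_X_pow, if_neg (by omega), dif_pos j.2, zero_add]

private theorem Base_fam_add_C (hg : 1 ≤ g) {D : Data G g} {m : ℕ} {f : G.A[X]}
    (hf : Fam₀ D m f) {w : G.A} (hw : w ∈ G.IL D.N (yy g m 0)) : Fam₀ D m (f + C w) := by
  have hlt : (C w : G.A[X]).degree < f.degree := by
    rw [degree_eq_natDegree hf.monic.ne_zero, hf.deg]
    refine lt_of_le_of_lt degree_C_le ?_
    exact_mod_cast Nat.succ_pos _
  have hc : ∀ j, (f + C w).coeff j = f.coeff j + if j = 0 then w else 0 := by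
    intro j
    rw [coeff_add, coeff_C]
  refine ⟨hf.monic.add_of_left hlt, ?_, ?_, ?_, ?_⟩
  · rw [natDegree_add_eq_left_of_degree_lt hlt, hf.deg]
  · rw [hc, if_neg (by omega), add_zero, hf.tr]
  · intro j hj
    rw [hc]
    by_cases h : j = 0
    · rw [if_pos h]
      have h1 := hf.lead j hj
      have h2 : (w : K) ∈ G.M (2 * m * (2 * g + 1 - j : ℕ) - 1) := by
        rw [h]
        exact hw.2
      have h3 := Submodule.add_mem _ h1 h2
      have e : ((f.coeff j + w : G.A) : K) - G.t ^ (2 * m * (2 * g + 1 - j)) *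
          (D.φ.coeff j : K) = ((f.coeff j : K) - G.t ^ (2 * m * (2 * g + 1 - j)) *
          (D.φ.coeff j : K)) + (w : K) := by
        have e1 : ((f.coeff j + w : G.A) : K) = (f.coeff j : K) + (w : K) := rfl
        rw [e1]
        ring
      rw [e]
      exact h3
    · rw [if_neg h, add_zero]
      exact hf.lead j hj
  · intro j
    rw [hc]
    by_cases h : j = 0
    · rw [if_pos h]
      have h3 := Ideal.add_mem _ (hf.cong j) hw.1
      have e : f.coeff j + w - D.f₀.coeff j = f.coeff j - D.f₀.coeff j + w := by ring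
      rw [e]
      exact h3
    · rw [if_neg h, add_zero]
      exact hf.cong j

private theorem Base_sum_exp (g : ℕ) :
    ∑ j : Fin (2 * g), 2 * (2 * g + 1 - (j : ℕ)) = 4 * g ^ 2 + 6 * g := by
  have h1 : ∑ j : Fin (2 * g), 2 * (2 * g + 1 - (j : ℕ)) =
      ∑ j ∈ Finset.range (2 * g), 2 * (j + 2) := by
    rw [Fin.sum_univ_eq_sum_range (fun j => 2 * (2 * g + 1 - j)) (2 * g),
      ← Finset.sum_range_reflect]
    refine Finset.sum_congr rfl fun j hj => ?_
    have := Finset.mem_range.1 hj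
    congr 1
    omega
  have h2 : ∀ r : ℕ, ∑ j ∈ Finset.range r, 2 * (j + 2) = r * (r + 3) := by
    intro r
    induction r with
    | zero => simp
    | succ r ih =>
      rw [Finset.sum_range_succ, ih]
      ring
  rw [h1, h2]
  ring

theorem exists_famEquiv (D : Data G g) (m : ℕ) :
    ∃ e : {f : G.A[X] // Fam₀ D m f} ≃
      (∀ j : Fin (2 * g), G.Cos D.N (D.f₀.coeff j) (cen D m j) (yy g m j)),
      ∀ (f : {f : G.A[X] // Fam₀ D m f}) (j : Fin (2 * g)),
        ((e f j : G.Cos D.N (D.f₀.coeff j) (cen D m j) (yy g m j)) : G.A) = f.1.coeff j := by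
  exact ⟨Base_equiv D m, fun f j => rfl⟩

theorem sum_exp (g : ℕ) : ∑ j : Fin (2 * g), 2 * (2 * g + 1 - (j : ℕ)) = 4 * g ^ 2 + 6 * g := by
  exact Base_sum_exp g

theorem finite_fam₀ [Finite k] (D : Data G g) (m : ℕ) : {f : G.A[X] | Fam₀ D m f}.Finite := by
  have h : ∀ j : Fin (2 * g), Finite (G.Cos D.N (D.f₀.coeff j) (cen D m j) (yy g m j)) :=
    fun j => Set.finite_coe_iff.2 (G.finite_cos _ _ _ _)
  have h2 : Finite {f : G.A[X] // Fam₀ D m f} := (Base_equiv D m).finite_iff.2 inferInstance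
  exact Set.finite_coe_iff.1 h2

theorem card_fam₀_ge [Finite k] (G : Geo k K) (g : ℕ) : ∃ C : ℕ, ∀ D : Data G g, ∃ m₀ : ℕ,
    ∀ m ≥ m₀, Nat.card k ^ (G.d * m * (4 * g ^ 2 + 6 * g)) ≤
      Nat.card k ^ (C + 2 * g * G.degI D.N) * Nat.card {f : G.A[X] // Fam₀ D m f} := by
  classical
  obtain ⟨C₁, hC₁⟩ := G.finrank_IL_ge
  refine ⟨2 * g * G.d * (1 + C₁), fun D => ?_⟩
  obtain ⟨y₀, hy₀⟩ := G.exists_coset D.N D.N_ne
  refine ⟨y₀ + 1, fun m hm => ?_⟩
  have hcard : Nat.card {f : G.A[X] // Fam₀ D m f} =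
      Nat.card k ^ (∑ j : Fin (2 * g), Module.finrank k (G.IL D.N (yy g m j))) := by
    rw [Nat.card_congr (Base_equiv D m), Nat.card_pi, ← Finset.prod_pow_eq_pow_sum]
    refine Finset.prod_congr rfl fun j _ => ?_
    refine G.card_cos_eq _ _ _ _ (hy₀ _ ?_ _ _)
    have hj : 2 ≤ 2 * g + 1 - (j : ℕ) := by have := j.2; omega
    have hj' : (2 : ℤ) ≤ ((2 * g + 1 - (j : ℕ) : ℕ) : ℤ) := by exact_mod_cast hj
    have hm' : ((y₀ : ℤ) + 1) ≤ (m : ℤ) := by exact_mod_cast hm
    unfold yy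
    nlinarith
  rw [hcard, ← pow_add]
  refine Nat.pow_le_pow_right Nat.card_pos ?_
  have h1 : ∀ j : Fin (2 * g), (G.d : ℤ) * m * (2 * (2 * g + 1 - (j : ℕ) : ℕ) : ℕ) -
      (G.d : ℤ) * (1 + C₁) - G.degI D.N ≤ (Module.finrank k (G.IL D.N (yy g m j)) : ℤ) := by
    intro j
    have h2 := hC₁ D.N D.N_ne (yy g m j)
    have h3 : (G.d : ℤ) * (yy g m j - C₁) - G.degI D.N = (G.d : ℤ) * m *
        (2 * (2 * g + 1 - (j : ℕ) : ℕ) : ℕ) - (G.d : ℤ) * (1 + C₁) - G.degI D.N := by
      unfold yy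
      push_cast
      ring
    rw [← h3]
    exact h2
  have h4 := Finset.sum_le_sum (s := Finset.univ) (fun (j : Fin (2 * g)) _ => h1 j)
  have h5 : ∑ j : Fin (2 * g), ((G.d : ℤ) * m * (2 * (2 * g + 1 - (j : ℕ) : ℕ) : ℕ) -
      (G.d : ℤ) * (1 + C₁) - G.degI D.N) = (G.d : ℤ) * m * ((4 * g ^ 2 + 6 * g : ℕ) : ℤ) -
      2 * g * ((G.d : ℤ) * (1 + C₁)) - 2 * g * G.degI D.N := by
    rw [Finset.sum_sub_distrib, Finset.sum_sub_distrib, ← Finset.mul_sum, ← Nat.cast_sum,
      Base_sum_exp, Finset.sum_const, Finset.sum_const, Finset.card_univ, Fintype.card_fin]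
    simp only [nsmul_eq_mul]
    push_cast
    ring
  rw [h5] at h4
  have h6 : ((G.d * m * (4 * g ^ 2 + 6 * g) : ℕ) : ℤ) ≤ ((2 * g * G.d * (1 + C₁) +
      2 * g * G.degI D.N + ∑ j : Fin (2 * g), Module.finrank k (G.IL D.N (yy g m j)) : ℕ) : ℤ) := by
    push_cast at h4 ⊢
    linarith
  exact_mod_cast h6

theorem fam₀_add_C (hg : 1 ≤ g) {D : Data G g} {m : ℕ} {f : G.A[X]} (hf : Fam₀ D m f) {w : G.A}
    (hw : w ∈ G.IL D.N (yy g m 0)) : Fam₀ D m (f + C w) := by
  exact Base_fam_add_C hg hf hw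

theorem fam₀_sub_C (hg : 1 ≤ g) {D : Data G g} {m : ℕ} {f : G.A[X]} (hf : Fam₀ D m f) {w : G.A}
    (hw : w ∈ G.IL D.N (yy g m 0)) : Fam₀ D m (f - C w) := by
  have h := Base_fam_add_C hg hf (Submodule.neg_mem _ hw)
  rwa [C_neg, ← sub_eq_add_neg] at h

theorem coeff_mem_M {D : Data G g} {m : ℕ} {f : G.A[X]} (hf : Fam₀ D m f) (j : ℕ) :
    (f.coeff j : K) ∈ G.M (2 * m * (2 * g + 1)) := by
  rcases Nat.lt_or_ge (2 * g + 1) j with h | h
  · rw [coeff_eq_zero_of_natDegree_lt (by rw [hf.deg]; exact h)]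
    exact Submodule.zero_mem _
  · have h1 := hf.lead j h
    have h2 : G.t ^ (2 * m * (2 * g + 1 - j)) * (D.φ.coeff j : K) ∈
        G.M (2 * m * (2 * g + 1 - j : ℕ)) := by
      have h3 : ((D.φ.coeff j : G.B) : K) ∈ G.M 0 := (G.mem_M_zero _).2 (D.φ.coeff j).2
      have h4 := (G.zpow_mul_mem_M (z := ((2 * m * (2 * g + 1 - j) : ℕ) : ℤ))).2 h3
      rw [zero_add, zpow_natCast] at h4
      have e : ((2 * m * (2 * g + 1 - j) : ℕ) : ℤ) = 2 * m * (2 * g + 1 - j : ℕ) := by
        push_cast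
        ring
      rw [e] at h4
      exact h4
    have h5 := Submodule.add_mem _ (G.M_mono (by omega) h1) h2
    rw [sub_add_cancel] at h5
    refine G.M_mono ?_ h5
    have h6 : ((2 * g + 1 - j : ℕ) : ℤ) ≤ 2 * g + 1 := by omega
    exact mul_le_mul_of_nonneg_left h6 (by positivity)

end Pool.Agent.GBC.Sv
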