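import Pool.Agent.Lib.GBC.S.Sq

/-!
Module S.DPoly of GBC (block S, the sieve). The derivation of the coefficients of a polynomial.

PROOFS (compare `HYP.Sv.dt`, `HYP.Sv.leib_mem`, `HYP.Sv.exists_common`). `dA_coeff`: from the definition (for `j > natDegree` the coefficient is `0`
and `δ 0 = 0`). `dA_add`, `dA_C`, `dA_mul`, `dA_natDegree_le` from `dA_coeff` (`coeff_mul`, Leibniz rule).
`exists_common`: `f = a + p b + p ^ 2 c` with the coefficients of `a` in `P ^ 2`, those of `b` in `P` (`mem_sq`). Let `Q` be the image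
of `p` in `(R ⧸ P)[x]`. `Q` divides the image of `f`. The derivative of `f` is `a' + p' b + p b' + 2 p p' c + p ^ 2 c'`, and modulo
`P` `a' = 0`, `b = 0`. The same for `dA δ`: the coefficients of `dA δ a` are in `P` because `δ (P ^ 2) ⊆ P` (Leibniz).
`dvd_of_common`, `derivative_ne`: see `HYP.Sv.derivative_map_ne_zero`.
-/

set_option autoImplicit false

open Polynomial

namespace Pool.Agent.GBC.Sv

variable {k R : Type} [Field k] [CommRing R] [Algebra k R]

/-- The derivation of the coefficients. -/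
noncomputable def dA (δ : Derivation k R R) (f : R[X]) : R[X] :=
  ∑ i ∈ Finset.range (f.natDegree + 1), C (δ (f.coeff i)) * X ^ i

theorem dA_coeff (δ : Derivation k R R) (f : R[X]) (j : ℕ) :
    (dA δ f).coeff j = δ (f.coeff j) := by
  unfold dA
  rw [finset_sum_coeff]
  simp only [coeff_C_mul_X_pow]
  rw [Finset.sum_ite_eq]
  split_ifs with h
  · rfl
  · rw [Finset.mem_range, not_lt] at h
    rw [coeff_eq_zero_of_natDegree_lt (by omega), map_zero]

theorem dA_add (δ : Derivation k R R) (f h : R[X]) : dA δ (f + h) = dA δ f + dA δ h := by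
  ext1 j
  rw [coeff_add, dA_coeff, dA_coeff, dA_coeff, coeff_add, map_add]

theorem dA_C (δ : Derivation k R R) (a : R) : dA δ (C a) = C (δ a) := by
  ext1 j
  rw [dA_coeff, coeff_C, coeff_C]
  split_ifs
  · rfl
  · exact map_zero _

theorem dA_mul (δ : Derivation k R R) (f h : R[X]) : dA δ (f * h) = dA δ f * h + f * dA δ h := by
  ext1 n
  rw [dA_coeff, coeff_add, coeff_mul, coeff_mul, coeff_mul, map_sum, ← Finset.sum_add_distrib]
  refine Finset.sum_congr rfl fun x _ => ?_
  rw [dA_coeff, dA_coeff, δ.leibniz, smul_eq_mul, smul_eq_mul]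
  ring

theorem dA_natDegree_le (δ : Derivation k R R) (f : R[X]) : (dA δ f).natDegree ≤ f.natDegree := by
  rw [natDegree_le_iff_coeff_eq_zero]
  intro j hj
  rw [dA_coeff, coeff_eq_zero_of_natDegree_lt hj, map_zero]

private theorem DPoly_sq (δ : Derivation k R R) {P : Ideal R} {x : R} (hx : x ∈ P ^ 2) :
    δ x ∈ P := by
  rw [pow_two] at hx
  refine Submodule.mul_induction_on hx ?_ ?_
  · intro m hm n hn
    rw [δ.leibniz, smul_eq_mul, smul_eq_mul]
    exact P.add_mem (P.mul_mem_right _ hm) (P.mul_mem_right _ hn)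
  · intro y z hy hz
    rw [map_add]
    exact P.add_mem hy hz

private theorem DPoly_map {P : Ideal R} {a : R[X]} (ha : ∀ i, a.coeff i ∈ P) :
    a.map (Ideal.Quotient.mk P) = 0 := by
  ext1 i
  rw [coeff_map, coeff_zero]
  exact Ideal.Quotient.eq_zero_iff_mem.2 (ha i)

theorem exists_common (δ : Derivation k R R) {P : Ideal R} (hP : P.IsPrime) {f : R[X]}
    (hr : ¬ RegI P f) : ∃ Q : (R ⧸ P)[X], Q.Monic ∧ Q.natDegree ≠ 0 ∧
      Q ∣ f.map (Ideal.Quotient.mk P) ∧ Q ∣ (derivative f).map (Ideal.Quotient.mk P) ∧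
      Q ∣ (dA δ f).map (Ideal.Quotient.mk P) := by
  unfold RegI at hr
  push Not at hr
  obtain ⟨p, hp, hp1, hf⟩ := hr
  obtain ⟨a, b, c, ha, hb, habc⟩ := mem_sq hf
  have : Nontrivial (R ⧸ P) := Ideal.Quotient.nontrivial_iff.2 hP.ne_top
  have ha0 : a.map (Ideal.Quotient.mk P) = 0 :=
    DPoly_map fun i => Ideal.pow_le_self two_ne_zero (ha i)
  have hb0 : b.map (Ideal.Quotient.mk P) = 0 := DPoly_map hb
  have hda : (dA δ a).map (Ideal.Quotient.mk P) = 0 :=
    DPoly_map fun i => by rw [dA_coeff]; exact DPoly_sq δ (ha i)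
  have hfm : f.map (Ideal.Quotient.mk P) =
      p.map (Ideal.Quotient.mk P) * (p.map (Ideal.Quotient.mk P) *
        c.map (Ideal.Quotient.mk P)) := by
    rw [habc, Polynomial.map_add, Polynomial.map_add, Polynomial.map_mul, Polynomial.map_mul,
      Polynomial.map_pow, ha0, hb0]
    ring
  refine ⟨p.map (Ideal.Quotient.mk P), hp.map _, ?_, ?_, ?_, ?_⟩
  · rw [hp.natDegree_map]
    omega
  · rw [hfm]
    exact dvd_mul_right _ _
  · rw [← Polynomial.derivative_map, hfm, derivative_mul, derivative_mul]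
    exact ⟨derivative (p.map (Ideal.Quotient.mk P)) * c.map (Ideal.Quotient.mk P) +
      (derivative (p.map (Ideal.Quotient.mk P)) * c.map (Ideal.Quotient.mk P) +
        p.map (Ideal.Quotient.mk P) * derivative (c.map (Ideal.Quotient.mk P))), by ring⟩
  · have h1 : dA δ f = dA δ a + (dA δ p * b + p * dA δ b) +
        ((dA δ p * p + p * dA δ p) * c + p ^ 2 * dA δ c) := by
      rw [habc, dA_add, dA_add, dA_mul, dA_mul, pow_two, dA_mul]
    rw [h1]
    simp only [Polynomial.map_add, Polynomial.map_mul, Polynomial.map_pow]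
    rw [hda, hb0]
    exact ⟨(dA δ b).map (Ideal.Quotient.mk P) +
      ((dA δ p).map (Ideal.Quotient.mk P) * c.map (Ideal.Quotient.mk P) +
        (dA δ p).map (Ideal.Quotient.mk P) * c.map (Ideal.Quotient.mk P) +
        p.map (Ideal.Quotient.mk P) * (dA δ c).map (Ideal.Quotient.mk P)), by ring⟩

/-- The derivative of a monic polynomial of degree `n`, `n ≠ 0` in the field `F`. -/
theorem derivative_map {n : ℕ} {f : R[X]} (hf : f.Monic) (hn : f.natDegree = n) (hn1 : 1 ≤ n)
    {F : Type} [CommRing F] [Nontrivial F] (r : R →+* F) (h : (n : F) ≠ 0) :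
    (derivative f).map r ≠ 0 ∧ ((derivative f).map r).natDegree = n - 1 := by
  have h1 : ((derivative f).map r).coeff (n - 1) ≠ 0 := by
    rw [coeff_map, coeff_derivative]
    have h2 := hf.coeff_natDegree
    have h3 : n - 1 + 1 = n := by omega
    have h4 : ((n - 1 : ℕ) : R) + 1 = (n : R) := by
      rw [← Nat.cast_succ, Nat.succ_eq_add_one, h3]
    rw [hn] at h2
    rw [h3, h2, one_mul, h4, map_natCast]
    exact h
  constructor
  · intro h0
    rw [h0, coeff_zero] at h1
    exact h1 rfl
  · refine le_antisymm ?_ (le_natDegree_of_ne_zero h1)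
    refine natDegree_map_le.trans ((natDegree_derivative_le f).trans ?_)
    rw [hn]

end Pool.Agent.GBC.Sv
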