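import Pool.Agent.Lib.GBC.Q.Base

/-!
Module S.Deriv of GBC (block S, the sieve). The derivation of `A`.

PROOFS. `pow_root`: the elements of `K` are fractions of elements of `B` (`G.exh`, `inv_mem`, `t_ne`), `B` is a principal ideal domain, hence
integrally closed: `x ∈ K`, `x ^ p ∈ B` (`p ≥ 1`) implies `x ∈ B`. (Use an `IsFractionRing G.B K` instance built from `G.exh`,
`IsIntegrallyClosed.isIntegral_iff`; or: `x = b / t⁻¹ ^ n`, `(t⁻¹ ^ n) ^ p ∣ b ^ p` in `B` gives `t⁻¹ ^ n ∣ b`, `pow_dvd_pow_iff` in a PID.)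
`root_mem_M`: put `r = y / p + 1` (integer division, `p ≥ 1`), so `y ≤ p r`. `b ^ p ∈ M y ≤ M (p r)`: `(t ^ (- r) b) ^ p ∈ B`, so
`t ^ (- r) b ∈ B`.
`root_mem_A`: `A` is integrally closed with fraction field `K` (`IsDedekindDomain`, `G.fracA`).
`exists_deriv`: restrict the derivation of `G.deriv` to `A` (a `Derivation k A A`); `D (M y) ⊆ M (y + c)`; if `δ a = 0` then `a = b ^ p`,
`b ∈ K`, and `b ∈ A` by `root_mem_A`; `p = ringChar k` is positive because it is the characteristic of a finite field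
(`CharP.char_is_prime`).
-/

set_option autoImplicit false

open Polynomial

namespace Pool.Agent.GBC.Sv

open Pool.Agent.BSDP Pool.Agent.BSDFF Pool.Agent.HYP Pool.Agent.GBC.Geo

variable {k K : Type} [Field k] [Field K] [Algebra k K]

theorem pow_root (G : Geo k K) {p : ℕ} (hp : 1 ≤ p) {x : K} (h : x ^ p ∈ G.B) : x ∈ G.B := by
  obtain ⟨n, hn⟩ := G.exh x
  have h1 : ((G.ti ^ n) ^ p : G.B) ∣ (⟨G.t⁻¹ ^ n * x, hn⟩ : G.B) ^ p := by
    refine ⟨⟨x ^ p, h⟩, ?_⟩
    apply Subtype.ext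
    change (G.t⁻¹ ^ n * x) ^ p = (G.t⁻¹ ^ n) ^ p * x ^ p
    rw [mul_pow]
  rw [IsIntegrallyClosed.pow_dvd_pow_iff (by omega)] at h1
  obtain ⟨b, hb⟩ := h1
  have h2 : G.t⁻¹ ^ n * x = G.t⁻¹ ^ n * (b : K) := congrArg Subtype.val hb
  have h3 : x = b := mul_left_cancel₀ (pow_ne_zero _ (inv_ne_zero G.t_ne)) h2
  rw [h3]
  exact b.2

theorem root_mem_M (G : Geo k K) {p : ℕ} (hp : 1 ≤ p) {b : K} {y : ℤ} (h : b ^ p ∈ G.M y) :
    b ∈ G.M (y / p + 1) := by
  have hp' : (0 : ℤ) < p := by exact_mod_cast hp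
  have h1 : y ≤ (p : ℤ) * (y / p + 1) := by
    have h2 := Int.mul_ediv_add_emod y p
    have h3 := Int.emod_lt_of_pos y hp'
    have h4 : (p : ℤ) * (y / p + 1) = p * (y / p) + p := by ring
    omega
  have h5 := M_mono G h1 h
  rw [mem_M] at h5 ⊢
  apply pow_root G hp
  have h6 : (G.t ^ (-(y / p + 1)) * b) ^ p = G.t ^ (-((p : ℤ) * (y / p + 1))) * b ^ p := by
    rw [mul_pow, ← zpow_natCast, ← zpow_mul]
    congr 2
    ring
  rw [h6]
  exact h5

theorem root_mem_A (G : Geo k K) {p : ℕ} (hp : 1 ≤ p) {x : K} (h : x ^ p ∈ G.A) : x ∈ G.A := by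
  have h1 : IsIntegral G.A (x ^ p) := by
    have : x ^ p = algebraMap G.A K ⟨x ^ p, h⟩ := rfl
    rw [this]
    exact isIntegral_algebraMap
  obtain ⟨y, hy⟩ := IsIntegrallyClosed.exists_algebraMap_eq_of_isIntegral_pow (by omega) h1
  rw [← hy]
  exact y.2

theorem exists_deriv [Finite k] (G : Geo k K) : ∃ (δ : Derivation k G.A G.A) (c : ℕ),
    (∀ (y : ℤ) (a : G.A), (a : K) ∈ G.M y → (δ a : K) ∈ G.M (y + c)) ∧
    ∀ a : G.A, δ a = 0 → ∃ b : G.A, a = b ^ ringChar k := by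
  obtain ⟨D, c, hA, hM, hk⟩ := G.deriv
  let l : G.A →ₗ[k] G.A :=
    { toFun := fun a => ⟨D a, hA a a.2⟩
      map_add' := fun a b => by
        apply Subtype.ext
        change D ((a : K) + b) = D a + D b
        rw [map_add]
      map_smul' := fun r a => by
        apply Subtype.ext
        change D (r • (a : K)) = r • D a
        exact D.map_smul r (a : K) }
  have hl : ∀ a : G.A, ((l a : G.A) : K) = D a := fun a => rfl
  refine ⟨Derivation.mk' l ?_, c, ?_, ?_⟩
  · intro a b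
    apply Subtype.ext
    change D ((a : K) * b) = (a : K) * D b + (b : K) * D a
    rw [D.leibniz]
    rfl
  · intro y a ha
    rw [mem_M] at ha ⊢
    exact hM y a ha
  · intro a ha
    have h1 : D (a : K) = 0 := congrArg Subtype.val ha
    obtain ⟨y, hy⟩ := hk a h1
    have hp : 1 ≤ ringChar k := Nat.one_le_iff_ne_zero.mpr (CharP.char_ne_zero_of_finite k _)
    have h2 : y ∈ G.A := by
      apply root_mem_A G hp
      rw [← hy]
      exact a.2
    refine ⟨⟨y, h2⟩, ?_⟩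
    apply Subtype.ext
    exact hy

end Pool.Agent.GBC.Sv
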