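import Pool.Agent.Lib.GBC.S.Base

/-!
Module S.Fib of GBC (block S, the sieve). The number of polynomials of the family in a class modulo
`P ^ 2`.

PROOF. `A` is not a field (`inv_not_mem`, `t_mem`, `t_ne`), so `P ≠ ⊥`. `m₀ = degI N`. Let `y j = 2 m (2 g + 1 - j) - 1`. `N` and
`P ^ 2` are coprime (`P` maximal, `N` not in `P`). By `exists_famEquiv` the set injects into the product over
`j < 2 g` of `{a ∈ Cos N (f₀_j) (cen) (y j) : a - v j ∈ P ^ 2}`. By the Chinese remainder theorem there is `b j ∈ A` with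
`b j - f₀_j ∈ N` and `b j - v j ∈ P ^ 2`, and this set is contained in `Cos (N * P ^ 2) (b j) cen (y j)` (`N ⊓ P ^ 2 = N * P ^ 2`), which has
at most `q ^ r`, `r = dim IL (N P ^ 2) (y j)` elements (`card_cos_le`). `finrank_IL_le`: `r = 0` or
`r ≤ d (y j + 1) - degI (N P ^ 2)`, `degI (N P ^ 2) = degI N + 2 degI P` (`degI_mul`); as `d (y j + 1) = 2 d m (2 g + 1 - j) ≥ 4 d m`
and `degI N + 2 degI P ≤ m + 2 d m ≤ 4 d m`, `r + degI N + 2 degI P ≤ 2 d m (2 g + 1 - j)` in both cases. Multiply over `j` (`sum_exp`).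
-/

set_option autoImplicit false

open Polynomial

namespace Pool.Agent.GBC.Sv

open Pool.Agent.BSDP Pool.Agent.BSDFF Pool.Agent.HYP Pool.Agent.GBC.Geo

variable {k K : Type} [Field k] [Field K] [Algebra k K] {G : Geo k K} {g : ℕ}

theorem ne_bot_of_max {P : Ideal G.A} (hP : P.IsMaximal) : P ≠ ⊥ := by
  rintro rfl
  let T : G.A := ⟨G.t, G.t_mem⟩
  have hT : T ≠ 0 := fun h => G.t_ne (congrArg Subtype.val h)
  have h1 : (⊥ : Ideal G.A) < Ideal.span {T} := by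
    rw [bot_lt_iff_ne_bot]
    intro h2
    exact hT (Ideal.span_singleton_eq_bot.1 h2)
  have h2 := hP.out.2 _ h1
  have h3 : (1 : G.A) ∈ Ideal.span {T} := by
    rw [h2]
    exact Submodule.mem_top
  obtain ⟨c, hc⟩ := Ideal.mem_span_singleton.1 h3
  apply G.inv_not_mem
  have h4 : (1 : K) = G.t * (c : K) := congrArg Subtype.val hc
  have h5 : G.t⁻¹ = (c : K) := inv_eq_of_mul_eq_one_right h4.symm
  rw [h5]
  exact c.2

/-- the Chinese remainder theorem -/
private theorem Fib_crt {R : Type} [CommRing R] {I J : Ideal R} (h : I ⊔ J = ⊤) (x y : R) :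
    ∃ b : R, b - x ∈ I ∧ b - y ∈ J := by
  obtain ⟨n, hn, p, hp, hnp⟩ := Submodule.mem_sup.1
    (show (1 : R) ∈ I ⊔ J by rw [h]; exact Submodule.mem_top)
  refine ⟨x * p + y * n, ?_, ?_⟩
  · have e : x * p + y * n - x = y * n - x * n := by
      have : p = 1 - n := by rw [← hnp]; ring
      rw [this]
      ring
    rw [e]
    exact I.sub_mem (I.mul_mem_left _ hn) (I.mul_mem_left _ hn)
  · have e : x * p + y * n - y = x * p - y * p := by
      have : n = 1 - p := by rw [← hnp]; ring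
      rw [this]
      ring
    rw [e]
    exact J.sub_mem (J.mul_mem_left _ hp) (J.mul_mem_left _ hp)

/-- the injection into a product of cosets -/
private theorem Fib_card_le [Finite k] (D : Data G g) (m : ℕ) (I : Ideal G.A)
    (hI : D.N ⊔ I = ⊤) (v : Fin (2 * g) → G.A) :
    ∃ b : Fin (2 * g) → G.A,
      Nat.card {f : G.A[X] // Fam₀ D m f ∧ ∀ j : Fin (2 * g), f.coeff j - v j ∈ I} ≤
        ∏ j : Fin (2 * g), Nat.card (G.Cos (D.N * I) (b j) (cen D m j) (yy g m j)) := by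
  classical
  obtain ⟨e, he⟩ := exists_famEquiv D m
  have hb : ∀ j : Fin (2 * g), ∃ b : G.A, b - D.f₀.coeff j ∈ D.N ∧ b - v j ∈ I :=
    fun j => Fib_crt hI _ _
  choose b hb1 hb2 using hb
  refine ⟨b, ?_⟩
  have hmem : ∀ f : {f : G.A[X] // Fam₀ D m f ∧ ∀ j : Fin (2 * g), f.coeff j - v j ∈ I},
      ∀ j : Fin (2 * g), f.1.coeff j ∈ G.Cos (D.N * I) (b j) (cen D m j) (yy g m j) := by
    intro f j
    have h1 := (e ⟨f.1, f.2.1⟩ j).2
    rw [he ⟨f.1, f.2.1⟩ j] at h1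
    refine ⟨?_, h1.2⟩
    rw [Ideal.mul_eq_inf_of_coprime hI]
    refine ⟨?_, ?_⟩
    · have h2 := D.N.sub_mem h1.1 (hb1 j)
      rwa [sub_sub_sub_cancel_right] at h2
    · have h2 := I.sub_mem (f.2.2 j) (hb2 j)
      rwa [sub_sub_sub_cancel_right] at h2
  let F : {f : G.A[X] // Fam₀ D m f ∧ ∀ j : Fin (2 * g), f.coeff j - v j ∈ I} →
      (∀ j : Fin (2 * g), G.Cos (D.N * I) (b j) (cen D m j) (yy g m j)) :=
    fun f j => ⟨f.1.coeff j, hmem f j⟩
  have hF : Function.Injective F := by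
    intro f f' h
    have h1 : e ⟨f.1, f.2.1⟩ = e ⟨f'.1, f'.2.1⟩ := by
      funext j
      apply Subtype.ext
      rw [he ⟨f.1, f.2.1⟩ j, he ⟨f'.1, f'.2.1⟩ j]
      exact congrArg Subtype.val (congrFun h j)
    have h2 := congrArg Subtype.val (e.injective h1)
    exact Subtype.ext h2
  have hfin : ∀ j : Fin (2 * g), Finite (G.Cos (D.N * I) (b j) (cen D m j) (yy g m j)) :=
    fun j => (G.finite_cos _ _ _ _).to_subtype
  have hfin2 : Finite (∀ j : Fin (2 * g), G.Cos (D.N * I) (b j) (cen D m j) (yy g m j)) :=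
    Pi.finite
  exact (Nat.card_le_card_of_injective F hF).trans_eq Nat.card_pi

/-- the exponents -/
private theorem Fib_exp (D : Data G g) {m : ℕ} (hm : G.degI D.N ≤ m) {P : Ideal G.A}
    (hP : P ≠ ⊥) (hPm : G.degI P ≤ G.d * m) (j : Fin (2 * g)) :
    Module.finrank k (G.IL (D.N * P ^ 2) (yy g m j)) + (G.degI D.N + 2 * G.degI P) ≤
      G.d * m * (2 * (2 * g + 1 - (j : ℕ))) := by
  have hP2 : P ^ 2 ≠ ⊥ := pow_ne_zero 2 hP
  have h1 : G.degI (D.N * P ^ 2) = G.degI D.N + 2 * G.degI P := by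
    rw [G.degI_mul D.N_ne hP2, pow_two, G.degI_mul hP hP, two_mul]
  have h2 : (2 : ℕ) ≤ 2 * g + 1 - (j : ℕ) := by
    have := j.2
    omega
  have h3 : G.degI D.N ≤ G.d * m := hm.trans (Nat.le_mul_of_pos_left m G.d_pos)
  have hNe : D.N * P ^ 2 ≠ ⊥ := mul_ne_zero D.N_ne hP2
  rcases G.finrank_IL_le hNe (yy g m j) with h4 | h4
  · rw [h4, zero_add]
    have h5 : G.d * m * (2 * 2) ≤ G.d * m * (2 * (2 * g + 1 - (j : ℕ))) :=
      Nat.mul_le_mul_left _ (Nat.mul_le_mul_left _ h2)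
    omega
  · rw [h1] at h4
    have h5 : (G.d : ℤ) * (yy g m j + 1) = ((G.d * m * (2 * (2 * g + 1 - (j : ℕ))) : ℕ) : ℤ) := by
      unfold yy
      push_cast
      ring
    rw [h5] at h4
    have h6 : ((Module.finrank k (G.IL (D.N * P ^ 2) (yy g m j)) +
        (G.degI D.N + 2 * G.degI P) : ℕ) : ℤ) ≤
        ((G.d * m * (2 * (2 * g + 1 - (j : ℕ))) : ℕ) : ℤ) := by
      rw [Nat.cast_add]
      linarith
    exact_mod_cast h6

theorem card_fib_le [Finite k] (D : Data G g) : ∃ m₀ : ℕ, ∀ m ≥ m₀, ∀ P : Ideal G.A, P.IsMaximal →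
    ¬ D.N ≤ P → G.degI P ≤ G.d * m → ∀ v : Fin (2 * g) → G.A,
      Nat.card {f : G.A[X] // Fam₀ D m f ∧ ∀ j : Fin (2 * g), f.coeff j - v j ∈ P ^ 2} *
        Nat.card k ^ (2 * g * G.degI D.N + 4 * g * G.degI P) ≤
      Nat.card k ^ (G.d * m * (4 * g ^ 2 + 6 * g)) := by
  classical
  refine ⟨G.degI D.N, fun m hm P hP hNP hPm v => ?_⟩
  have hP0 : P ≠ ⊥ := ne_bot_of_max hP
  have hq : 0 < Nat.card k := Nat.card_pos
  have hsup : D.N ⊔ P = ⊤ := by
    by_contra h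
    apply hNP
    have h1 : P ≤ D.N ⊔ P := le_sup_right
    have h2 : P = D.N ⊔ P := hP.eq_of_le h h1
    rw [h2]
    exact le_sup_left
  have hsup2 : D.N ⊔ P ^ 2 = ⊤ := Ideal.sup_pow_eq_top hsup
  obtain ⟨b, hb⟩ := Fib_card_le D m (P ^ 2) hsup2 v
  let r : Fin (2 * g) → ℕ := fun j => Module.finrank k (G.IL (D.N * P ^ 2) (yy g m j))
  have h1 : Nat.card {f : G.A[X] // Fam₀ D m f ∧ ∀ j : Fin (2 * g), f.coeff j - v j ∈ P ^ 2} ≤
      Nat.card k ^ (∑ j, r j) := by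
    refine hb.trans ?_
    rw [← Finset.prod_pow_eq_pow_sum]
    exact Finset.prod_le_prod' fun j _ => G.card_cos_le _ _ _ _
  have h2 : (∑ j, r j) + (2 * g * G.degI D.N + 4 * g * G.degI P) ≤
      G.d * m * (4 * g ^ 2 + 6 * g) := by
    have h3 : ∑ j : Fin (2 * g), (r j + (G.degI D.N + 2 * G.degI P)) ≤
        ∑ j : Fin (2 * g), G.d * m * (2 * (2 * g + 1 - (j : ℕ))) :=
      Finset.sum_le_sum fun j _ => Fib_exp D hm hP0 hPm j
    rw [Finset.sum_add_distrib, ← Finset.mul_sum, sum_exp, Finset.sum_const, Finset.card_univ,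
      Fintype.card_fin, smul_eq_mul] at h3
    have h4 : 2 * g * G.degI D.N + 4 * g * G.degI P = 2 * g * (G.degI D.N + 2 * G.degI P) := by
      ring
    rw [h4]
    exact h3
  calc _ ≤ Nat.card k ^ (∑ j, r j) * Nat.card k ^ (2 * g * G.degI D.N + 4 * g * G.degI P) :=
        Nat.mul_le_mul_right _ h1
    _ = Nat.card k ^ ((∑ j, r j) + (2 * g * G.degI D.N + 4 * g * G.degI P)) := (pow_add _ _ _).symm
    _ ≤ _ := Nat.pow_le_pow_right hq h2

end Pool.Agent.GBC.Sv
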