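import Pool.Agent.Lib.GBC.S.Res

/-!
Module S.GB of GBC (block S, the sieve). The polynomials with coprime partial derivatives which are
not regular at a prime of degree `> d m` are negligible.

PROOF (ADAPTATION of `HYP.Sv.card_GB`). `p = ringChar k` (a prime, `p ≥ 5`), `e = m / p`. `S` = the finite set of all `f` with `Fam₀ D m f`, `B` the subset of the bad
ones, `W = IL N e` (finite, `q ^ dim` elements, `dim ≥ d (e - C) - degI N`), `τ w = C (w ^ p)`: `w ^ p ∈ N`, `w ^ p ∈ M (p e) ≤ M (yy g m 0)` because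
`p e ≤ m ≤ 2 m (2 g + 1) - 1`. `HYP.Sv.dc` with `fam₀_sub_C`: `#B #W ≤ #S * M'` if for every `h ∈ S` at most `M'` of the `w ∈ W` have
`h + C (w ^ p) ∈ B`. Claim: `M' = (4 g + 1) (4 g + 2 + c) * (2 g)`. `δ (w ^ p) = 0` (characteristic `p`), so `h + C (w ^ p)` has the same two
derivatives as `h`. Let `R₀ = resultant h' (dA δ h)`. If `R₀ = 0` then no `h + C (w ^ p)` is in `B` (`res_ne`). Let `R₀ ≠ 0`. By `exists_common` and `mem_of_common` the
prime `P` of a bad `h + C (w ^ p)` is in the finite set (`finite_primes`) `s` of the maximal ideals with `d m < degI P` and `R₀ ∈ P`; by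
`card_primes` with `b = d m` and `res_mem_M`: `#s * (d m) ≤ d (4 g + 1) (2 m (2 g + 1) + c) ≤ d m (4 g + 1) (4 g + 2 + c)`. For one `P ∈ s`
at most `2 g` of the `w ∈ W` are such that `h'` and `h + C (w ^ p)` are not coprime modulo `P` (`HYP.Sv.card_not_coprime` over the field `A ⧸ P`,
`ψ w = (w ^ p mod P)`; `derivative_map`): `ψ` is injective on `W`, because `w ^ p = w' ^ p` modulo `P` implies `(w - w') ^ p ∈ P`, `w - w' ∈ P`, and
`w ≠ w'` would give `degI P ≤ degI (w - w') ≤ d e ≤ d m` (`degI_le`, `degI_span_le`). [`Q` of `exists_common` divides both, is not a unit.]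
Finally `M * M' ≤ #W` for `m ≥ m₀`.
-/

set_option autoImplicit false

open Polynomial

namespace Pool.Agent.GBC.Sv

open Pool.Agent.BSDP Pool.Agent.BSDFF Pool.Agent.HYP Pool.Agent.GBC.Geo

variable {k K : Type} [Field k] [Field K] [Algebra k K] {G : Geo k K} {g : ℕ}

private theorem GB_card_aux {α : Type} (s : Finset α) : Nat.card {a : α // a ∈ s} = s.card := by
  rw [Nat.card_eq_fintype_card, Fintype.card_coe]

theorem card_GB [Finite k] (hg : 1 ≤ g) (hp : 2 * g + 1 < ringChar k) {δ : Derivation k G.A G.A}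
    {c : ℕ} (hδ : ∀ (y : ℤ) (a : G.A), (a : K) ∈ G.M y → (δ a : K) ∈ G.M (y + c)) (D : Data G g)
    (M : ℕ) :
    ∃ m₀ : ℕ, ∀ m ≥ m₀, M * Nat.card {f : G.A[X] // Fam₀ D m f ∧
      IsCoprime ((derivative f).map (algebraMap G.A K)) ((dA δ f).map (algebraMap G.A K)) ∧
      ∃ P : Ideal G.A, P.IsMaximal ∧ G.d * m < G.degI P ∧ ¬ RegI P f} ≤
      Nat.card {f : G.A[X] // Fam₀ D m f} := by
  classical
  set p := ringChar k with hpdef
  have hcp : CharP k p := ringChar.charP k
  have hpp : p.Prime := by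
    rcases CharP.char_is_prime_or_zero k p with h | h
    · exact h
    · omega
  have hfact : Fact p.Prime := ⟨hpp⟩
  have hn : ((2 * g + 1 : ℕ) : k) ≠ 0 := by
    intro h
    rw [CharP.cast_eq_zero_iff k p] at h
    have := Nat.le_of_dvd (by omega) h
    omega
  have hcA : CharP G.A p := charP_of_injective_algebraMap (algebraMap k G.A).injective p
  have hδp : ∀ w : G.A, δ (w ^ p) = 0 := by
    intro w
    rw [Derivation.leibniz_pow, ← Nat.cast_smul_eq_nsmul G.A, CharP.cast_eq_zero G.A p, zero_smul]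
  obtain ⟨C₀, hC₀⟩ := G.finrank_IL_ge
  set M' : ℕ := (4 * g + 1) * (4 * g + 2 + c) * (2 * g) with hM'
  have hM'0 : 0 < M' := by positivity
  refine ⟨p * (C₀ + G.degI D.N + M * M' + 1), fun m hm => ?_⟩
  have hp0 : 0 < p := hpp.pos
  have hm1 : 1 ≤ m := by
    have h1 : 1 * 1 ≤ p * (C₀ + G.degI D.N + M * M' + 1) := Nat.mul_le_mul hp0 (by omega)
    omega
  set e : ℕ := m / p with he
  have he1 : C₀ + G.degI D.N + M * M' + 1 ≤ e := by
    rw [he, Nat.le_div_iff_mul_le hp0, mul_comm]
    exact hm
  have he2 : p * e ≤ m := Nat.mul_div_le m p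
  have hfin : Module.Finite k (G.IL D.N e) := G.fin_IL D.N e
  have hfW : Finite (G.IL D.N e) := Module.finite_of_finite k
  let _ : Fintype (G.IL D.N e) := Fintype.ofFinite _
  have hWc : M * M' ≤ (Finset.univ : Finset (G.IL D.N e)).card := by
    rw [Finset.card_univ, ← Nat.card_eq_fintype_card, Module.natCard_eq_pow_finrank (K := k)]
    have h1 := hC₀ D.N D.N_ne (e : ℤ)
    have h2 : (M * M' : ℕ) ≤ Module.finrank k (G.IL D.N e) := by
      have hd : (1 : ℤ) ≤ G.d := by exact_mod_cast G.d_pos
      have h3 : (e : ℤ) - C₀ ≤ G.d * ((e : ℤ) - C₀) := by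
        have h4 : (0 : ℤ) ≤ (e : ℤ) - C₀ := by omega
        nlinarith
      have h5 : ((M * M' : ℕ) : ℤ) ≤ Module.finrank k (G.IL D.N e) := by omega
      exact_mod_cast h5
    have h3 : 2 ≤ Nat.card k := Finite.one_lt_card
    calc M * M' ≤ Module.finrank k (G.IL D.N e) := h2
      _ ≤ 2 ^ Module.finrank k (G.IL D.N e) := Nat.lt_two_pow_self.le
      _ ≤ _ := Nat.pow_le_pow_left h3 _
  have hmem : ∀ w : G.IL D.N e, (w.1 ^ p : G.A) ∈ G.IL D.N (yy g m 0) := by
    intro w
    refine ⟨Ideal.pow_mem_of_mem _ w.2.1 _ hp0, ?_⟩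
    have h1 : ((w.1 ^ p : G.A) : K) = (w.1 : K) ^ p := rfl
    rw [h1]
    refine G.M_mono ?_ (G.pow_mem_M w.2.2 p)
    have h2 : ((p * e : ℕ) : ℤ) ≤ m := by exact_mod_cast he2
    unfold yy
    push_cast at h2 ⊢
    have h3 : (0 : ℤ) ≤ m * g := by positivity
    have h4 : (1 : ℤ) ≤ m := by exact_mod_cast hm1
    nlinarith
  set S : Finset G.A[X] := (finite_fam₀ D m).toFinset with hS
  have hSm : ∀ f, f ∈ S ↔ Fam₀ D m f := by
    intro f
    rw [hS, Set.Finite.mem_toFinset]
    exact Iff.rfl
  set B : Finset G.A[X] := S.filter (fun f =>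
    IsCoprime ((derivative f).map (algebraMap G.A K)) ((dA δ f).map (algebraMap G.A K)) ∧
      ∃ P : Ideal G.A, P.IsMaximal ∧ G.d * m < G.degI P ∧ ¬ RegI P f) with hB
  have hBS : B ⊆ S := Finset.filter_subset _ _
  have hdt : ∀ (h : G.A[X]) (w : G.A), dA δ (h + C (w ^ p)) = dA δ h := by
    intro h w
    rw [dA_add, dA_C, hδp, C_0, add_zero]
  have hdd : ∀ (h : G.A[X]) (w : G.A), derivative (h + C (w ^ p)) = derivative h := by
    intro h w
    rw [derivative_add, derivative_C, add_zero]
  have hdc := HYP.Sv.dc S B hBS (Finset.univ : Finset (G.IL D.N e)) (fun w => C (w.1 ^ p)) ?_ M' ?_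
  · have h1 : Nat.card {f : G.A[X] // Fam₀ D m f ∧
        IsCoprime ((derivative f).map (algebraMap G.A K)) ((dA δ f).map (algebraMap G.A K)) ∧
        ∃ P : Ideal G.A, P.IsMaximal ∧ G.d * m < G.degI P ∧ ¬ RegI P f} = B.card := by
      rw [← GB_card_aux B]
      exact Nat.card_congr (Equiv.subtypeEquivRight fun f => by
        rw [hB, Finset.mem_filter, hSm])
    have h2 : Nat.card {f : G.A[X] // Fam₀ D m f} = S.card := by
      rw [← GB_card_aux S]
      exact Nat.card_congr (Equiv.subtypeEquivRight fun f => (hSm f).symm)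
    rw [h1, h2]
    refine Nat.le_of_mul_le_mul_right ?_ hM'0
    calc M * B.card * M' = B.card * (M * M') := by ring
      _ ≤ B.card * (Finset.univ : Finset (G.IL D.N e)).card := Nat.mul_le_mul_left _ hWc
      _ ≤ S.card * M' := hdc
  · intro f hf w _
    rw [hSm] at hf ⊢
    exact fam₀_sub_C hg hf (hmem w)
  · intro h hh
    rw [hSm] at hh
    set R : G.A := resultant (derivative h) (dA δ h) with hR
    by_cases hR0 : R = 0
    · have he0 : (Finset.univ.filter (fun w : G.IL D.N e => h + C (w.1 ^ p) ∈ B)) = ∅ := by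
        rw [Finset.filter_eq_empty_iff]
        intro w _ hw
        have h2 := res_ne (Finset.mem_filter.1 hw).2.1
        rw [hdd, hdt] at h2
        exact h2 hR0
      rw [he0, Finset.card_empty]
      exact Nat.zero_le _
    · set s : Finset (Ideal G.A) := ((finite_primes hR0).toFinset).filter
        (fun P => G.d * m < G.degI P) with hs
      have hsm : ∀ P, P ∈ s ↔ (P.IsMaximal ∧ R ∈ P) ∧ G.d * m < G.degI P := by
        intro P
        rw [hs, Finset.mem_filter, Set.Finite.mem_toFinset]
        exact Iff.rfl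
      have hPc : s.card ≤ (4 * g + 1) * (4 * g + 2 + c) := by
        have h2 := card_primes hR0 (res_mem_M hδ hh) (b := G.d * m) s (fun P hP => by
          rw [hsm] at hP
          exact ⟨hP.1.1, hP.2.le, hP.1.2⟩)
        have h3 : s.card * (G.d * m) ≤ G.d * ((4 * g + 1) * (2 * m * (2 * g + 1) + c)) := by
          exact_mod_cast h2
        have h4 : (s.card * m) * G.d ≤ ((4 * g + 1) * (4 * g + 2 + c) * m) * G.d := by
          calc (s.card * m) * G.d = s.card * (G.d * m) := by ring
            _ ≤ G.d * ((4 * g + 1) * (2 * m * (2 * g + 1) + c)) := h3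
            _ ≤ G.d * ((4 * g + 1) * (2 * m * (2 * g + 1) + c * m)) := by
              refine Nat.mul_le_mul_left _ (Nat.mul_le_mul_left _ (Nat.add_le_add_left ?_ _))
              exact Nat.le_mul_of_pos_right c hm1
            _ = ((4 * g + 1) * (4 * g + 2 + c) * m) * G.d := by ring
        exact Nat.le_of_mul_le_mul_right (Nat.le_of_mul_le_mul_right h4 G.d_pos) hm1
      have hcov : (Finset.univ.filter (fun w : G.IL D.N e => h + C (w.1 ^ p) ∈ B)) ⊆
          s.biUnion (fun P => Finset.univ.filter (fun w : G.IL D.N e =>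
            ¬ IsCoprime ((derivative h).map (Ideal.Quotient.mk P))
              (h.map (Ideal.Quotient.mk P) + C (Ideal.Quotient.mk P (w.1 ^ p))))) := by
        intro w hw
        rw [Finset.mem_filter] at hw
        obtain ⟨_, P, h3, h4, h5⟩ := (Finset.mem_filter.1 hw.2).2
        obtain ⟨Q, hQm, hQ0, hQ1, hQ2, hQ3⟩ := exists_common δ h3.isPrime h5
        rw [hdd] at hQ2
        rw [hdt] at hQ3
        rw [Polynomial.map_add, map_C] at hQ1
        have h6 : R ∈ P := mem_of_common hg hn hh h3 hQm hQ0 hQ2 hQ3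
        rw [Finset.mem_biUnion]
        refine ⟨P, (hsm P).2 ⟨⟨h3, h6⟩, h4⟩, ?_⟩
        rw [Finset.mem_filter]
        refine ⟨Finset.mem_univ _, fun hcop => ?_⟩
        have h7 : IsUnit Q := hcop.isUnit_of_dvd' hQ2 hQ1
        have h8 := hQm.eq_one_of_isUnit h7
        rw [h8, natDegree_one] at hQ0
        exact hQ0 rfl
      refine (Finset.card_le_card hcov).trans (Finset.card_biUnion_le.trans ?_)
      refine (Finset.sum_le_card_nsmul _ _ (2 * g) ?_).trans ?_
      · intro P hP
        rw [hsm] at hP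
        obtain ⟨⟨hPm, hRP⟩, hPd⟩ := hP
        let _ : Field (G.A ⧸ P) := Ideal.Quotient.field P
        have hcF : CharP (G.A ⧸ P) p :=
          charP_of_injective_algebraMap (algebraMap k (G.A ⧸ P)).injective p
        have hnF : ((2 * g + 1 : ℕ) : G.A ⧸ P) ≠ 0 := by
          intro h0
          rw [CharP.cast_eq_zero_iff (G.A ⧸ P) p] at h0
          have := Nat.le_of_dvd (by omega) h0
          omega
        have h1 := derivative_map hh.monic hh.deg (by omega) (Ideal.Quotient.mk P) hnF
        refine (HYP.Sv.card_not_coprime h1.1 (h.map (Ideal.Quotient.mk P))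
          (Finset.univ : Finset (G.IL D.N e)) (fun w => Ideal.Quotient.mk P (w.1 ^ p)) ?_ _
          (Finset.filter_subset _ _) ?_).trans ?_
        · intro w _ w' _ h6
          have h7 : (Ideal.Quotient.mk P w.1) ^ p = (Ideal.Quotient.mk P w'.1) ^ p := by
            rw [← map_pow, ← map_pow]
            exact h6
          have h8 := frobenius_inj (G.A ⧸ P) p h7
          rw [Ideal.Quotient.eq] at h8
          refine Subtype.ext (sub_eq_zero.1 ?_)
          by_contra h9
          have h10 : Ideal.span {w.1 - w'.1} ≤ P := (Ideal.span_singleton_le_iff_mem _).2 h8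
          have h11 : Ideal.span {w.1 - w'.1} ≠ ⊥ := by
            rw [Ne, Ideal.span_singleton_eq_bot]
            exact h9
          have h12 := G.degI_le h11 h10
          have h13 : ((w.1 - w'.1 : G.A) : K) ∈ G.M e := (G.M e).sub_mem w.2.2 w'.2.2
          have h14 := G.degI_span_le h9 h13
          have h15 : e ≤ m := Nat.div_le_self m p
          have h16 : G.degI (Ideal.span {w.1 - w'.1}) ≤ G.d * e := by exact_mod_cast h14
          have h17 : G.d * e ≤ G.d * m := Nat.mul_le_mul_left _ h15
          omega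
        · intro w hw
          exact (Finset.mem_filter.1 hw).2
        · rw [h1.2]
          exact le_of_eq (by omega)
      · rw [smul_eq_mul]
        exact Nat.mul_le_mul_right _ hPc

end Pool.Agent.GBC.Sv
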