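import Pool.Agent.Lib.GBC.S.Fib
import Pool.Agent.Lib.GBC.S.BadSum

/-!
Module S.SmallP of GBC (block S, the sieve). The polynomials of the family which are not regular at a
small prime `P`, and the primes dividing `N`.

PROOFS. `card_bad_P`: `m₀` of `card_fib_le`. `Q = q ^ degI P = #(A ⧸ P)` (`Module.card_eq_pow_finrank` in the `Nat.card` form, `fin_quotI`),
`#(A ⧸ P ^ 2) = q ^ degI (P ^ 2) = Q ^ 2` (`degI_mul`), `Q ≥ 2` (`A ⧸ P` is nontrivial). The map
`f ↦ (j ↦ the class of f_j modulo P ^ 2)` sends the bad `f` to the set of `card_bad_classes`; the fibre of the class of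
`v` has at most `F` elements, `F * q ^ (2 g degI N + 4 g degI P) ≤ q ^ E` (`card_fib_le`). So
`#bad * q ^ (2 g degI N) * Q ^ (4 g) * Q ^ 2 ≤ #classes * Q ^ 2 * q ^ E ≤ 2 Q ^ (4 g) q ^ E`; cancel `Q ^ (4 g)`.
`reg_of_N`: `f = f₀` modulo `N ≤ P`, so `f` modulo `P` is irreducible (`D.irr₀`), `reg_of_irr`.
-/

set_option autoImplicit false

open Polynomial

namespace Pool.Agent.GBC.Sv

open Pool.Agent.BSDP Pool.Agent.BSDFF Pool.Agent.HYP Pool.Agent.GBC.Geo

variable {k K : Type} [Field k] [Field K] [Algebra k K] {G : Geo k K} {g : ℕ}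

private theorem smallP_fiber {S T : Type} [Finite S] [Finite T] (c : S → T) (X Y : ℕ)
    (h : ∀ t : T, Nat.card {s : S // c s = t} * X ≤ Y) : Nat.card S * X ≤ Nat.card T * Y := by
  have := Fintype.ofFinite T
  rw [← Nat.card_congr (Equiv.sigmaFiberEquiv c), Nat.card_sigma, Finset.sum_mul,
    Nat.card_eq_fintype_card, ← Finset.card_univ, ← smul_eq_mul (Finset.card Finset.univ) Y,
    ← Finset.sum_const]
  exact Finset.sum_le_sum fun t _ => h t

theorem card_bad_P [Finite k] (D : Data G g) : ∃ m₀ : ℕ, ∀ m ≥ m₀, ∀ P : Ideal G.A, P.IsMaximal →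
    ¬ D.N ≤ P → G.degI P ≤ G.d * m →
      Nat.card {f : G.A[X] // Fam₀ D m f ∧ ¬ RegI P f} *
        Nat.card k ^ (2 * g * G.degI D.N + 2 * G.degI P) ≤
      2 * Nat.card k ^ (G.d * m * (4 * g ^ 2 + 6 * g)) := by
  classical
  obtain ⟨m₀, hm₀⟩ := card_fib_le D
  refine ⟨m₀, fun m hm P hP hN hd => ?_⟩
  have hfib := hm₀ m hm P hP hN hd
  have hP0 : P ≠ ⊥ := ne_bot_of_max hP
  have hP20 : P ^ 2 ≠ ⊥ := pow_ne_zero 2 hP0
  have hf1 : Module.Finite k (G.A ⧸ P) := G.fin_quotI P hP0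
  have hf2 : Module.Finite k (G.A ⧸ P ^ 2) := G.fin_quotI _ hP20
  have hF1 : Finite (G.A ⧸ P) := Module.finite_of_finite k
  have hF2 : Finite (G.A ⧸ P ^ 2) := Module.finite_of_finite k
  have hQ : Nat.card (G.A ⧸ P) = Nat.card k ^ G.degI P := Module.natCard_eq_pow_finrank (K := k)
  have hQ2 : Nat.card (G.A ⧸ P ^ 2) = (Nat.card k ^ G.degI P) ^ 2 := by
    have h1 : Nat.card (G.A ⧸ P ^ 2) = Nat.card k ^ G.degI (P ^ 2) :=
      Module.natCard_eq_pow_finrank (K := k)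
    rw [h1, ← pow_mul, sq P, G.degI_mul hP0 hP0, mul_two]
  have hnt : Nontrivial (G.A ⧸ P) := Ideal.Quotient.nontrivial_iff.2 hP.ne_top
  have hQ0 : 2 ≤ Nat.card k ^ G.degI P := by
    rw [← hQ]
    exact Finite.one_lt_card
  have hbad := card_bad_classes (g := g) hP.isPrime hQ hQ2 hQ0
  let T : Type := {v : Fin (2 * g) → G.A ⧸ P ^ 2 // ∃ f : G.A[X], f.Monic ∧
    f.natDegree = 2 * g + 1 ∧ f.coeff (2 * g) = 0 ∧ ¬ RegI P f ∧
      ∀ j, v j = Ideal.Quotient.mk (P ^ 2) (f.coeff j)}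
  let S : Type := {f : G.A[X] // Fam₀ D m f ∧ ¬ RegI P f}
  have hT : Finite T := Subtype.finite
  have hFam : Finite {f : G.A[X] // Fam₀ D m f} := (finite_fam₀ D m).to_subtype
  have hS : Finite S :=
    Finite.of_injective (fun s : S => (⟨s.1, s.2.1⟩ : {f : G.A[X] // Fam₀ D m f})) (by
      intro a b h
      exact Subtype.ext (congrArg (fun z : {f : G.A[X] // Fam₀ D m f} => z.1) h))
  let c : S → T := fun s => ⟨fun j => Ideal.Quotient.mk (P ^ 2) (s.1.coeff j),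
    s.1, s.2.1.monic, s.2.1.deg, s.2.1.tr, s.2.2, fun _ => rfl⟩
  have key : Nat.card S * Nat.card k ^ (2 * g * G.degI D.N + 4 * g * G.degI P) ≤
      Nat.card T * Nat.card k ^ (G.d * m * (4 * g ^ 2 + 6 * g)) := by
    refine smallP_fiber c _ _ fun t => ?_
    choose v hv using fun j => Ideal.Quotient.mk_surjective (t.1 j)
    refine le_trans (Nat.mul_le_mul_right _ ?_) (hfib v)
    have hfin : Finite {f : G.A[X] // Fam₀ D m f ∧ ∀ j : Fin (2 * g),
        f.coeff j - v j ∈ P ^ 2} :=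
      Finite.of_injective (fun s => (⟨s.1, s.2.1⟩ : {f : G.A[X] // Fam₀ D m f})) (by
        intro a b h
        exact Subtype.ext (congrArg (fun z : {f : G.A[X] // Fam₀ D m f} => z.1) h))
    refine Nat.card_le_card_of_injective
      (fun s : {s : S // c s = t} => (⟨s.1.1, s.1.2.1, fun j => ?_⟩ :
        {f : G.A[X] // Fam₀ D m f ∧ ∀ j : Fin (2 * g), f.coeff j - v j ∈ P ^ 2})) ?_
    · have h1 : (c s.1).1 j = t.1 j := by rw [s.2]
      rw [← Ideal.Quotient.eq, hv j, ← h1]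
    · intro a b h
      have h1 : a.1.1 = b.1.1 := congrArg (fun z : {f : G.A[X] // Fam₀ D m f ∧
        ∀ j : Fin (2 * g), f.coeff j - v j ∈ P ^ 2} => z.1) h
      exact Subtype.ext (Subtype.ext h1)
  have hbad' : Nat.card T * (Nat.card k ^ G.degI P) ^ 2 ≤
      2 * (Nat.card k ^ G.degI P) ^ (4 * g) := hbad
  have hpos : 0 < (Nat.card k ^ G.degI P) ^ (4 * g) := by positivity
  refine Nat.le_of_mul_le_mul_right ?_ hpos
  calc Nat.card S * Nat.card k ^ (2 * g * G.degI D.N + 2 * G.degI P) *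
        (Nat.card k ^ G.degI P) ^ (4 * g)
      = Nat.card S * Nat.card k ^ (2 * g * G.degI D.N + 4 * g * G.degI P) *
        (Nat.card k ^ G.degI P) ^ 2 := by
        rw [← pow_mul, ← pow_mul, pow_add, pow_add]
        rw [mul_comm (G.degI P) (4 * g), mul_comm (G.degI P) 2]
        ring
    _ ≤ Nat.card T * Nat.card k ^ (G.d * m * (4 * g ^ 2 + 6 * g)) *
        (Nat.card k ^ G.degI P) ^ 2 := Nat.mul_le_mul_right _ key
    _ = Nat.card T * (Nat.card k ^ G.degI P) ^ 2 *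
        Nat.card k ^ (G.d * m * (4 * g ^ 2 + 6 * g)) := by ring
    _ ≤ 2 * (Nat.card k ^ G.degI P) ^ (4 * g) *
        Nat.card k ^ (G.d * m * (4 * g ^ 2 + 6 * g)) := Nat.mul_le_mul_right _ hbad'
    _ = _ := by ring

theorem reg_of_N {D : Data G g} {m : ℕ} {f : G.A[X]} (hf : Fam₀ D m f) {P : Ideal G.A}
    (hP : P.IsMaximal) (hN : D.N ≤ P) : RegI P f := by
  apply reg_of_irr hP.isPrime
  have h : f.map (Ideal.Quotient.mk P) = D.f₀.map (Ideal.Quotient.mk P) := by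
    ext j
    rw [coeff_map, coeff_map, Ideal.Quotient.eq]
    exact hN (hf.cong j)
  rw [h]
  exact D.irr₀ P hP hN

end Pool.Agent.GBC.Sv
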