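import Pool.Agent.Lib.GBC.S.NG
import Pool.Agent.Lib.GBC.S.GB
import Pool.Agent.Lib.GBC.S.SmallP

/-!
Module S.Main of GBC (block S): the sieve.

PROOF. `C` from `card_fam₀_ge`, `q = #k`, `E = m (4 g ^ 2 + 6 g)`. `E₀` with `16 d q ^ C ≤ q ^ E₀`. Let `D` be given, `T = #{f // Fam₀ D m f}`; for large `m`:
(1) `q ^ (d E) ≤ q ^ (C + 2 g degI N) T`. (2) The number of the `f` which are not regular at some `P` with `d m < degI P` is at most
`T / 4`: `exists_deriv`, `card_NG` and `card_GB` with `M = 8`. (3) If `f` is not regular at `P` then `N ≤ P` is impossible (`reg_of_N`), so `E₀ < degI P` by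
the hypothesis; for `degI P ≤ d m` the number of these `f` is at most `2 q ^ (d E) / q ^ (2 g degI N + 2 degI P) ≤ 2 q ^ C T / q ^ (2 degI P)`
(`card_bad_P` and (1)). The number of the `P` with `degI P = e` is at most `d q ^ e` (`hcount`), so the sum over `E₀ < e ≤ d m` is at
most `∑_(e > E₀) 2 d q ^ C T q ^ (- e) ≤ 2 d q ^ C T * 2 q ^ (- E₀ - 1) ≤ T / 4`. So at least `T / 2` of the `f` are regular at all maximal ideals (`P` with
`degI P > d m`, `≤ d m`), i.e. `Fam D m f`, and `T / 2 ≥ q ^ (d E) / (2 q ^ (C + 2 g degI N))`.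
(Finite sets: `finite_fam₀`, `hcount`; compare the last 100 lines of `HYP/S/Main.lean`.)
-/

set_option autoImplicit false

open Polynomial

namespace Pool.Agent.GBC.Sv

open Pool.Agent.BSDP Pool.Agent.BSDFF Pool.Agent.HYP Pool.Agent.GBC.Geo

variable {k K : Type} [Field k] [Field K] [Algebra k K]

private theorem smain_geo {q : ℝ} (hq : 2 ≤ q) (E : ℕ) : ∀ n : ℕ,
    ∑ e ∈ Finset.Ioc E (E + n), 1 / q ^ e ≤ 1 / q ^ E - 1 / q ^ (E + n)
  | 0 => by simp
  | n + 1 => by
    have h0 : (0 : ℝ) < q := by linarith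
    have h1 : Finset.Ioc E (E + (n + 1)) = insert (E + n + 1) (Finset.Ioc E (E + n)) := by
      ext x
      simp only [Finset.mem_Ioc, Finset.mem_insert]
      omega
    rw [h1, Finset.sum_insert (by simp)]
    have h2 := smain_geo hq E n
    have h3 : 1 / q ^ (E + n + 1) ≤ 1 / q ^ (E + n) - 1 / q ^ (E + n + 1) := by
      have h4 : 1 / q ^ (E + n) = q * (1 / q ^ (E + n + 1)) := by
        rw [pow_succ]
        field_simp
      rw [h4]
      have h5 : 0 ≤ 1 / q ^ (E + n + 1) := by positivity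
      nlinarith
    have h6 : E + (n + 1) = E + n + 1 := rfl
    rw [h6]
    linarith

private theorem smain_sum {q : ℕ} (hq : 2 ≤ q) (E R A : ℕ) (x : ℕ → ℕ)
    (h : ∀ e ∈ Finset.Ioc E R, x e * q ^ e ≤ A) :
    (∑ e ∈ Finset.Ioc E R, x e) * q ^ E ≤ A := by
  rcases Nat.lt_or_ge R E with hR | hR
  · rw [Finset.Ioc_eq_empty (by omega), Finset.sum_empty, zero_mul]
    exact Nat.zero_le _
  · obtain ⟨n, rfl⟩ := Nat.exists_eq_add_of_le hR
    have hq' : (2 : ℝ) ≤ (q : ℝ) := by exact_mod_cast hq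
    have hq0 : (0 : ℝ) < (q : ℝ) := by linarith
    have h1 : (∑ e ∈ Finset.Ioc E (E + n), (x e : ℝ)) ≤
        ∑ e ∈ Finset.Ioc E (E + n), (A : ℝ) * (1 / (q : ℝ) ^ e) := by
      refine Finset.sum_le_sum fun e he => ?_
      have h2 : ((x e * q ^ e : ℕ) : ℝ) ≤ (A : ℝ) := by exact_mod_cast h e he
      rw [mul_one_div, le_div_iff₀ (by positivity)]
      push_cast at h2
      exact h2
    rw [← Finset.mul_sum] at h1
    have h2 := smain_geo hq' E n
    have h3 : (0 : ℝ) ≤ 1 / (q : ℝ) ^ (E + n) := by positivity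
    have h4 : (∑ e ∈ Finset.Ioc E (E + n), (x e : ℝ)) ≤ (A : ℝ) * (1 / (q : ℝ) ^ E) :=
      h1.trans (mul_le_mul_of_nonneg_left (by linarith) (Nat.cast_nonneg A))
    rw [mul_one_div, le_div_iff₀ (by positivity)] at h4
    exact_mod_cast h4

theorem sieve_ideal [Finite k] (G : Geo k K) {g : ℕ} (hg : 1 ≤ g) (hp : 2 * g + 1 < ringChar k)
    (hcount : ∀ e : ℕ, {P : Ideal G.A | P.IsMaximal ∧ G.degI P = e}.Finite ∧
      {P : Ideal G.A | P.IsMaximal ∧ G.degI P = e}.ncard ≤ G.d * Nat.card k ^ e) :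
    ∃ E₀ : ℕ, ∀ D : Data G g, (∀ P : Ideal G.A, P.IsMaximal → G.degI P ≤ E₀ → D.N ≤ P) →
      ∃ c : ℝ, 0 < c ∧ ∃ m₀ : ℕ, ∀ m ≥ m₀,
        c * (Nat.card k : ℝ) ^ (G.d * m * (4 * g ^ 2 + 6 * g)) ≤
          Nat.card {f : G.A[X] // Fam D m f} := by
  classical
  set q := Nat.card k with hq
  have hq2 : 2 ≤ q := Finite.one_lt_card
  have hq0 : 0 < q := by omega
  obtain ⟨C, hC⟩ := card_fam₀_ge G g
  obtain ⟨δ, c, hδ, hker⟩ := exists_deriv G
  refine ⟨64 * (G.d * q ^ C), fun D hD => ?_⟩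
  set E := 64 * (G.d * q ^ C) with hE
  have hE' : 64 * (G.d * q ^ C) ≤ q ^ E := by
    rw [← hE]
    exact (Nat.lt_pow_self hq2).le
  obtain ⟨m₁, hm₁⟩ := hC D
  obtain ⟨m₂, hm₂⟩ := card_bad_P D
  obtain ⟨m₃, hm₃⟩ := card_NG hg hp hker D 8
  obtain ⟨m₄, hm₄⟩ := card_GB hg hp hδ D 8
  refine ⟨1 / (2 * (q : ℝ) ^ (C + 2 * g * G.degI D.N)), by positivity,
    max (max m₁ m₂) (max m₃ m₄), fun m hm => ?_⟩
  have h1 := hm₁ m (by omega)
  have h2 := hm₂ m (by omega)
  have h3 := hm₃ m (by omega)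
  have h4 := hm₄ m (by omega)
  -- finite sets
  set S : Finset G.A[X] := (finite_fam₀ D m).toFinset with hS
  have hmemS : ∀ f, f ∈ S ↔ Fam₀ D m f := fun f => by
    rw [hS, Set.Finite.mem_toFinset]
    rfl
  have hScard : Nat.card {f : G.A[X] // Fam₀ D m f} = S.card := Nat.subtype_card S hmemS
  set F : Finset G.A[X] := S.filter (fun f => ∀ P : Ideal G.A, P.IsMaximal → RegI P f) with hF
  have hFcard : Nat.card {f : G.A[X] // Fam D m f} = F.card := by
    refine Nat.subtype_card F fun f => ?_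
    rw [hF, Finset.mem_filter, hmemS]
    exact ⟨fun h => ⟨h.1, h.2⟩, fun h => ⟨h.1, h.2⟩⟩
  set B1 : Finset G.A[X] := S.filter (fun f =>
    ¬ IsCoprime ((derivative f).map (algebraMap G.A K)) ((dA δ f).map (algebraMap G.A K))) with hB1
  have hB1card : Nat.card {f : G.A[X] // Fam₀ D m f ∧
      ¬ IsCoprime ((derivative f).map (algebraMap G.A K)) ((dA δ f).map (algebraMap G.A K))} =
      B1.card := by
    refine Nat.subtype_card B1 fun f => ?_
    rw [hB1, Finset.mem_filter, hmemS]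
  set B2 : Finset G.A[X] := S.filter (fun f =>
    IsCoprime ((derivative f).map (algebraMap G.A K)) ((dA δ f).map (algebraMap G.A K)) ∧
      ∃ P : Ideal G.A, P.IsMaximal ∧ G.d * m < G.degI P ∧ ¬ RegI P f) with hB2
  have hB2card : Nat.card {f : G.A[X] // Fam₀ D m f ∧
      IsCoprime ((derivative f).map (algebraMap G.A K)) ((dA δ f).map (algebraMap G.A K)) ∧
      ∃ P : Ideal G.A, P.IsMaximal ∧ G.d * m < G.degI P ∧ ¬ RegI P f} = B2.card := by
    refine Nat.subtype_card B2 fun f => ?_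
    rw [hB2, Finset.mem_filter, hmemS]
  rw [hB1card, hScard] at h3
  rw [hB2card, hScard] at h4
  rw [hScard] at h1
  let Bf : Ideal G.A → Finset G.A[X] := fun P => S.filter (fun f => ¬ RegI P f)
  have hBf : ∀ P : Ideal G.A, Nat.card {f : G.A[X] // Fam₀ D m f ∧ ¬ RegI P f} = (Bf P).card := by
    intro P
    refine Nat.subtype_card (Bf P) fun f => ?_
    rw [Finset.mem_filter, hmemS]
  let Ir : ℕ → Finset (Ideal G.A) := fun e => (hcount e).1.toFinset
  have hIr : ∀ e P, P ∈ Ir e ↔ P.IsMaximal ∧ G.degI P = e := fun e P => by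
    rw [Set.Finite.mem_toFinset]
    rfl
  have hIcard : ∀ e, (Ir e).card ≤ G.d * q ^ e := by
    intro e
    have h := (hcount e).2
    rwa [Set.ncard_eq_toFinset_card _ (hcount e).1] at h
  have hcov : S ⊆ F ∪ ((B1 ∪ B2) ∪ (Finset.Ioc E (G.d * m)).biUnion (fun e => (Ir e).biUnion Bf)) := by
    intro f hf
    rw [Finset.mem_union, Finset.mem_union, Finset.mem_union]
    by_cases hreg : ∀ P : Ideal G.A, P.IsMaximal → RegI P f
    · left
      rw [hF, Finset.mem_filter]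
      exact ⟨hf, hreg⟩
    · right
      push Not at hreg
      obtain ⟨P, hP, hr⟩ := hreg
      rcases Nat.lt_or_ge (G.d * m) (G.degI P) with hd | hd
      · left
        by_cases hcop : IsCoprime ((derivative f).map (algebraMap G.A K))
            ((dA δ f).map (algebraMap G.A K))
        · right
          rw [hB2, Finset.mem_filter]
          exact ⟨hf, hcop, P, hP, hd, hr⟩
        · left
          rw [hB1, Finset.mem_filter]
          exact ⟨hf, hcop⟩
      · right
        rw [Finset.mem_biUnion]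
        refine ⟨G.degI P, Finset.mem_Ioc.2 ⟨?_, hd⟩, ?_⟩
        · by_contra hcon
          exact hr (reg_of_N ((hmemS f).1 hf) hP (hD P hP (not_lt.1 hcon)))
        · rw [Finset.mem_biUnion]
          exact ⟨P, (hIr _ _).2 ⟨hP, rfl⟩, Finset.mem_filter.2 ⟨hf, hr⟩⟩
  have hcnt : S.card ≤ F.card + (B1.card + B2.card +
      ∑ e ∈ Finset.Ioc E (G.d * m), ∑ P ∈ Ir e, (Bf P).card) := by
    refine (Finset.card_le_card hcov).trans ((Finset.card_union_le _ _).trans ?_)
    refine Nat.add_le_add_left ((Finset.card_union_le _ _).trans ?_) _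
    refine Nat.add_le_add (Finset.card_union_le _ _) (Finset.card_biUnion_le.trans ?_)
    exact Finset.sum_le_sum fun d _ => Finset.card_biUnion_le
  -- one small prime
  have hone : ∀ e, e ≤ G.d * m → ∀ P ∈ Ir e, (Bf P).card * q ^ (2 * e) ≤ 2 * (q ^ C * S.card) := by
    intro e he P hP
    obtain ⟨hPm, hPe⟩ := (hIr e P).1 hP
    by_cases hN : D.N ≤ P
    · have h5 : (Bf P).card = 0 := by
        rw [Finset.card_eq_zero, Finset.filter_eq_empty_iff]
        intro f hf hr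
        exact hr (reg_of_N ((hmemS f).1 hf) hPm hN)
      rw [h5, zero_mul]
      exact Nat.zero_le _
    · have h5 := h2 P hPm hN (by rw [hPe]; exact he)
      rw [hBf, hPe, ← hq] at h5
      have h6 : (Bf P).card * q ^ (2 * e) * q ^ (2 * g * G.degI D.N) ≤
          2 * (q ^ C * S.card) * q ^ (2 * g * G.degI D.N) := by
        calc (Bf P).card * q ^ (2 * e) * q ^ (2 * g * G.degI D.N) =
            (Bf P).card * q ^ (2 * g * G.degI D.N + 2 * e) := by rw [pow_add]; ring
          _ ≤ 2 * q ^ (G.d * m * (4 * g ^ 2 + 6 * g)) := h5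
          _ ≤ 2 * (q ^ (C + 2 * g * G.degI D.N) * S.card) := Nat.mul_le_mul_left _ h1
          _ = 2 * (q ^ C * S.card) * q ^ (2 * g * G.degI D.N) := by rw [pow_add]; ring
      exact Nat.le_of_mul_le_mul_right h6 (by positivity)
  have hsm : (∑ e ∈ Finset.Ioc E (G.d * m), ∑ P ∈ Ir e, (Bf P).card) * q ^ E ≤
      2 * (G.d * q ^ C) * S.card := by
    refine smain_sum hq2 E (G.d * m) _ _ fun e he => ?_
    rw [Finset.mem_Ioc] at he
    have h5 : (∑ P ∈ Ir e, (Bf P).card) * q ^ (2 * e) ≤ (G.d * q ^ e) * (2 * (q ^ C * S.card)) := by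
      rw [Finset.sum_mul]
      refine (Finset.sum_le_card_nsmul _ _ _ (hone e he.2)).trans ?_
      rw [smul_eq_mul]
      exact Nat.mul_le_mul_right _ (hIcard e)
    have h6 : ((∑ P ∈ Ir e, (Bf P).card) * q ^ e) * q ^ e ≤ (2 * (G.d * q ^ C) * S.card) * q ^ e := by
      calc ((∑ P ∈ Ir e, (Bf P).card) * q ^ e) * q ^ e =
          (∑ P ∈ Ir e, (Bf P).card) * q ^ (2 * e) := by rw [two_mul, pow_add]; ring
        _ ≤ (G.d * q ^ e) * (2 * (q ^ C * S.card)) := h5
        _ = (2 * (G.d * q ^ C) * S.card) * q ^ e := by ring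
    exact Nat.le_of_mul_le_mul_right h6 (by positivity)
  have hsm2 : 32 * (∑ e ∈ Finset.Ioc E (G.d * m), ∑ P ∈ Ir e, (Bf P).card) ≤ S.card := by
    have hd : 0 < G.d * q ^ C := Nat.mul_pos G.d_pos (by positivity)
    set Sm := ∑ e ∈ Finset.Ioc E (G.d * m), ∑ P ∈ Ir e, (Bf P).card
    have h5 : (32 * Sm) * (2 * (G.d * q ^ C)) ≤ S.card * (2 * (G.d * q ^ C)) := by
      calc (32 * Sm) * (2 * (G.d * q ^ C)) = Sm * (64 * (G.d * q ^ C)) := by ring
        _ ≤ Sm * q ^ E := Nat.mul_le_mul_left _ hE'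
        _ ≤ 2 * (G.d * q ^ C) * S.card := hsm
        _ = S.card * (2 * (G.d * q ^ C)) := by ring
    exact Nat.le_of_mul_le_mul_right h5 (by omega)
  have hfin : S.card ≤ 2 * F.card := by omega
  have h7 : q ^ (G.d * m * (4 * g ^ 2 + 6 * g)) ≤
      2 * q ^ (C + 2 * g * G.degI D.N) * F.card := by
    calc q ^ (G.d * m * (4 * g ^ 2 + 6 * g)) ≤ q ^ (C + 2 * g * G.degI D.N) * S.card := h1
      _ ≤ q ^ (C + 2 * g * G.degI D.N) * (2 * F.card) := Nat.mul_le_mul_left _ hfin
      _ = 2 * q ^ (C + 2 * g * G.degI D.N) * F.card := by ring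
  rw [hFcard, one_div, inv_mul_le_iff₀ (by positivity)]
  exact_mod_cast h7

end Pool.Agent.GBC.Sv
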