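import Pool.Agent.Lib.GBC.S.Res

/-!
Module S.NG of GBC (block S, the sieve). The polynomials whose partial derivatives are not coprime
over `K` are negligible.

PROOF (compare `HYP.Sv.card_NG`). Put `y = yy g m 0 = 2 m (2 g + 1) - 1`, `p = ringChar k` (a prime, `p ≥ 5`), `e = y / p`. `S` = the finite set of all `f` with
`Fam₀ D m f` (`finite_fam₀`), `B` the subset of the bad ones, `W = IL N y` (finite, `q ^ dim` elements, `dim ≥ d (y - C) - degI N`
by `finrank_IL_ge`), `τ w = C w`. `HYP.Sv.dc` with `fam₀_sub_C` gives `#B #W ≤ #S * M'`, if for every `h ∈ S` at most `M'` of the `w ∈ W` have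
`h + C w ∈ B`. Claim: `M' = 2 g * q ^ (d (e + 2))`. `(h + C w)' = h'`, `dA δ (h + C w) = dA δ h + C (δ w)`. The values `v = δ w` of the bad `w` are at
most `2 g`: `HYP.Sv.card_not_coprime` with `c = h'` over `K` (`derivative_map`: nonzero of degree `2 g`), `ψ = algebraMap G.A K`, applied
to the set of these values. For one value `v`, choose `w₀` with `δ w₀ = v`; every other `w` with `δ w = v` is `w₀ + b ^ p` (`hker`), `b ^ p ∈ M y`, so
`b ∈ M (e + 1)` (`root_mem_M`), `b ∈ IL ⊤ (e + 1)`, at most `q ^ (d (e + 2))` elements (`finrank_IL_le` for `⊤`, or `finrank_L_le`), and `w ↦ b` is injective.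
Finally `M * M' ≤ #W` for `m ≥ m₀`: `2 g M ≤ q ^ (2 g M)`, `d (y - C) - degI N ≥ d (y / 5 + 2) + 2 g M` for large `m`.
So `M * #B * #W ≤ #S * (M * M') ≤ #S * #W`.
-/

set_option autoImplicit false

open Polynomial

namespace Pool.Agent.GBC.Sv

open Pool.Agent.BSDP Pool.Agent.BSDFF Pool.Agent.HYP Pool.Agent.GBC.Geo

variable {k K : Type} [Field k] [Field K] [Algebra k K] {G : Geo k K} {g : ℕ}

/-- the number of elements of a space `IL` -/
private theorem NG_card [Finite k] (G : Geo k K) (I : Ideal G.A) (y : ℤ) :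
    Finite (G.IL I y) ∧ Nat.card (G.IL I y) = Nat.card k ^ Module.finrank k (G.IL I y) := by
  have h1 : Module.Finite k (G.IL I y) := G.fin_IL I y
  exact ⟨Module.finite_of_finite k, Module.natCard_eq_pow_finrank (K := k)⟩

private theorem NG_top [Finite k] (G : Geo k K) {e : ℕ} :
    Nat.card (G.IL ⊤ ((e : ℤ) + 1)) ≤ Nat.card k ^ (G.d * (e + 2)) := by
  rw [(NG_card G ⊤ _).2]
  refine Nat.pow_le_pow_right Nat.card_pos ?_
  have hne : (⊤ : Ideal G.A) ≠ ⊥ := by
    intro h
    have h1 : (1 : G.A) ∈ (⊥ : Ideal G.A) := by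
      rw [← h]
      exact Submodule.mem_top
    rw [Ideal.mem_bot] at h1
    exact one_ne_zero h1
  rcases G.finrank_IL_le hne ((e : ℤ) + 1) with h | h
  · rw [h]
    exact Nat.zero_le _
  · have h2 : (Module.finrank k (G.IL ⊤ ((e : ℤ) + 1)) : ℤ) ≤ ((G.d * (e + 2) : ℕ) : ℤ) := by
      push_cast
      have h3 : (0 : ℤ) ≤ (G.degI ⊤ : ℤ) := by positivity
      have h4 : (G.d : ℤ) * ((e : ℤ) + 1 + 1) = (G.d : ℤ) * ((e : ℤ) + 2) := by ring
      rw [h4] at h
      linarith
    exact_mod_cast h2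

/-- one fibre of `δ` -/
private theorem NG_fib [Finite k] {δ : Derivation k G.A G.A}
    (hker : ∀ a : G.A, δ a = 0 → ∃ b : G.A, a = b ^ ringChar k) (hp1 : 1 ≤ ringChar k)
    (I : Ideal G.A) (y : ℤ) {e : ℕ} (he : y / (ringChar k : ℤ) = e) (F : Finset (G.IL I y))
    (v : G.A) (hF : ∀ w ∈ F, δ (w : G.A) = v) : F.card ≤ Nat.card k ^ (G.d * (e + 2)) := by
  classical
  rcases F.eq_empty_or_nonempty with h | ⟨w₀, h₀⟩
  · rw [h, Finset.card_empty]
    exact Nat.zero_le _
  · have hfin : Finite (G.IL ⊤ ((e : ℤ) + 1)) := (NG_card G ⊤ _).1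
    let _ : Fintype (G.IL ⊤ ((e : ℤ) + 1)) := Fintype.ofFinite _
    have key : ∀ w ∈ F, ∃ b : G.IL ⊤ ((e : ℤ) + 1), (w : G.A) - w₀ = (b : G.A) ^ ringChar k := by
      intro w hw
      have h1 : δ ((w : G.A) - w₀) = 0 := by
        rw [map_sub, hF w hw, hF w₀ h₀, sub_self]
      obtain ⟨b, hb⟩ := hker _ h1
      have h2 : (((w : G.A) - w₀ : G.A) : K) ∈ G.M y := (Submodule.sub_mem _ w.2 w₀.2).2
      rw [hb] at h2
      have h3 : (b : K) ^ ringChar k ∈ G.M y := h2
      have h4 := root_mem_M G hp1 h3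
      rw [he] at h4
      exact ⟨⟨b, Submodule.mem_top, h4⟩, hb⟩
    choose! b hb using key
    refine le_trans ?_ (NG_top G)
    rw [Nat.card_eq_fintype_card, ← Finset.card_univ]
    refine Finset.card_le_card_of_injOn b (fun _ _ => Finset.mem_coe.2 (Finset.mem_univ _)) ?_
    intro w hw w' hw' h
    have h1 := hb w hw
    rw [h, ← hb w' hw'] at h1
    exact Subtype.ext (sub_left_inj.1 h1)

private theorem NG_arith (d g m C N' M p : ℕ) (hg : 1 ≤ g) (hd : 1 ≤ d) (hp : 4 ≤ p)
    (hm : C + 4 + 2 * g * M + N' ≤ m) {y : ℤ} (hy : y = 2 * m * (2 * g + 1 - 0 : ℕ) - 1) :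
    0 ≤ y / (p : ℤ) ∧ (((2 * g * M + d * ((y / (p : ℤ)).toNat + 2) : ℕ)) : ℤ) ≤ d * (y - C) - N' := by
  have hy1 : 6 * (m : ℤ) - 1 ≤ y := by
    rw [hy, Nat.sub_zero]
    push_cast
    have h1 : (1 : ℤ) ≤ g := by exact_mod_cast hg
    have h2 : (0 : ℤ) ≤ m := by positivity
    nlinarith
  have hm0 : (4 : ℤ) ≤ m := by
    have : 4 ≤ m := by omega
    exact_mod_cast this
  have hy0 : 0 ≤ y := by omega
  have hp0 : (4 : ℤ) ≤ p := by exact_mod_cast hp
  have he0 : 0 ≤ y / (p : ℤ) := Int.ediv_nonneg hy0 (by omega)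
  refine ⟨he0, ?_⟩
  have he1 : (((y / (p : ℤ)).toNat : ℕ) : ℤ) = y / (p : ℤ) := Int.toNat_of_nonneg he0
  have he2 : y / (p : ℤ) * p ≤ y := Int.ediv_mul_le y (by omega)
  have he3 : 4 * (y / (p : ℤ)) ≤ y := by nlinarith
  push_cast
  rw [he1]
  have hm' : (C : ℤ) + 4 + 2 * g * M + N' ≤ m := by exact_mod_cast hm
  have hd' : (1 : ℤ) ≤ d := by exact_mod_cast hd
  set E := y / (p : ℤ) with hE
  have h3 : (2 : ℤ) * g * M + N' ≤ y - C - E - 2 := by omega
  have h4 : (0 : ℤ) ≤ 2 * g * M + N' := by positivity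
  have h5 : (2 : ℤ) * g * M + N' ≤ d * (y - C - E - 2) := by nlinarith
  nlinarith

theorem card_NG [Finite k] (hg : 1 ≤ g) (hp : 2 * g + 1 < ringChar k) {δ : Derivation k G.A G.A}
    (hker : ∀ a : G.A, δ a = 0 → ∃ b : G.A, a = b ^ ringChar k) (D : Data G g) (M : ℕ) :
    ∃ m₀ : ℕ, ∀ m ≥ m₀, M * Nat.card {f : G.A[X] // Fam₀ D m f ∧
      ¬ IsCoprime ((derivative f).map (algebraMap G.A K)) ((dA δ f).map (algebraMap G.A K))} ≤
      Nat.card {f : G.A[X] // Fam₀ D m f} := by
  classical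
  have hprime : (ringChar k).Prime := CharP.char_is_prime k (ringChar k)
  have hp1 : 1 ≤ ringChar k := hprime.one_lt.le
  have hp4 : 4 ≤ ringChar k := by omega
  have hnk : ((2 * g + 1 : ℕ) : k) ≠ 0 := by
    intro h
    rw [ringChar.spec] at h
    have := Nat.le_of_dvd (by omega) h
    omega
  have hnK : ((2 * g + 1 : ℕ) : K) ≠ 0 := by
    intro h
    apply hnk
    apply (algebraMap k K).injective
    rw [map_natCast, h, map_zero]
  obtain ⟨C₀, hC₀⟩ := G.finrank_IL_ge
  refine ⟨C₀ + 4 + 2 * g * M + G.degI D.N, fun m hm => ?_⟩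
  set S : Finset G.A[X] := (finite_fam₀ D m).toFinset with hS
  have hmemS : ∀ f, f ∈ S ↔ Fam₀ D m f := fun f => by rw [hS, Set.Finite.mem_toFinset]; rfl
  set B : Finset G.A[X] := S.filter (fun f =>
    ¬ IsCoprime ((derivative f).map (algebraMap G.A K)) ((dA δ f).map (algebraMap G.A K))) with hB
  have hcardS : Nat.card {f : G.A[X] // Fam₀ D m f} = S.card := Nat.subtype_card S hmemS
  have hcardB : Nat.card {f : G.A[X] // Fam₀ D m f ∧
      ¬ IsCoprime ((derivative f).map (algebraMap G.A K)) ((dA δ f).map (algebraMap G.A K))} =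
      B.card := Nat.subtype_card B fun f => by rw [hB, Finset.mem_filter, hmemS]
  rw [hcardS, hcardB]
  obtain ⟨he0, hdim⟩ := NG_arith G.d g m C₀ (G.degI D.N) M (ringChar k) hg G.d_pos hp4 hm
    (y := yy g m 0) rfl
  set e : ℕ := (yy g m 0 / (ringChar k : ℤ)).toNat with he
  have hee : yy g m 0 / (ringChar k : ℤ) = e := (Int.toNat_of_nonneg he0).symm
  have hWfin : Finite (G.IL D.N (yy g m 0)) := (NG_card G D.N _).1
  let _ : Fintype (G.IL D.N (yy g m 0)) := Fintype.ofFinite _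
  have hW : (Finset.univ : Finset (G.IL D.N (yy g m 0))).card =
      Nat.card k ^ Module.finrank k (G.IL D.N (yy g m 0)) := by
    rw [Finset.card_univ, ← Nat.card_eq_fintype_card]
    exact (NG_card G D.N _).2
  have hdc := HYP.Sv.dc S B (Finset.filter_subset _ _) (Finset.univ : Finset (G.IL D.N (yy g m 0)))
    (fun w => C (w : G.A)) ?_ (2 * g * Nat.card k ^ (G.d * (e + 2))) ?_
  · rw [hW] at hdc
    have hq : 1 < Nat.card k := Finite.one_lt_card
    have h1 : M * (2 * g * Nat.card k ^ (G.d * (e + 2))) ≤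
        Nat.card k ^ Module.finrank k (G.IL D.N (yy g m 0)) := by
      have h2 : 2 * g * M + G.d * (e + 2) ≤ Module.finrank k (G.IL D.N (yy g m 0)) := by
        have h3 := hC₀ D.N D.N_ne (yy g m 0)
        have h4 := hdim.trans h3
        exact_mod_cast h4
      refine le_trans ?_ (Nat.pow_le_pow_right Nat.card_pos h2)
      rw [pow_add]
      have h5 : M * (2 * g * Nat.card k ^ (G.d * (e + 2))) =
          (2 * g * M) * Nat.card k ^ (G.d * (e + 2)) := by ring
      rw [h5]
      exact Nat.mul_le_mul_right _ (Nat.lt_pow_self hq).le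
    have hpos : 0 < Nat.card k ^ Module.finrank k (G.IL D.N (yy g m 0)) := pow_pos Nat.card_pos _
    refine Nat.le_of_mul_le_mul_right ?_ hpos
    calc M * B.card * Nat.card k ^ Module.finrank k (G.IL D.N (yy g m 0)) =
        M * (B.card * Nat.card k ^ Module.finrank k (G.IL D.N (yy g m 0))) := by ring
      _ ≤ M * (S.card * (2 * g * Nat.card k ^ (G.d * (e + 2)))) := Nat.mul_le_mul_left _ hdc
      _ = S.card * (M * (2 * g * Nat.card k ^ (G.d * (e + 2)))) := by ring
      _ ≤ _ := Nat.mul_le_mul_left _ h1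
  · intro f hf w _
    rw [hmemS] at hf ⊢
    exact fam₀_sub_C hg hf w.2
  · intro h hh
    rw [hmemS] at hh
    have h1 := derivative_map hh.monic hh.deg (by omega) (algebraMap G.A K) hnK
    set Bw := Finset.univ.filter (fun w : G.IL D.N (yy g m 0) => h + C (w : G.A) ∈ B) with hBw
    have hT : (Bw.image (fun w : G.IL D.N (yy g m 0) => δ (w : G.A))).card ≤ 2 * g := by
      refine (HYP.Sv.card_not_coprime h1.1 ((dA δ h).map (algebraMap G.A K))
        (Bw.image (fun w : G.IL D.N (yy g m 0) => δ (w : G.A))) (algebraMap G.A K) ?_ _ (Finset.Subset.refl _) ?_).trans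
        (le_of_eq ?_)
      · intro a _ b _ hab
        exact IsFractionRing.injective G.A K hab
      · intro v hv
        rw [Finset.mem_image] at hv
        obtain ⟨w, hw, rfl⟩ := hv
        rw [hBw, Finset.mem_filter, hB, Finset.mem_filter] at hw
        have h2 := hw.2.2
        rw [derivative_add, derivative_C, add_zero, dA_add, dA_C, Polynomial.map_add, map_C] at h2
        exact h2
      · rw [h1.2]
        omega
    refine (Finset.card_le_mul_card_image (f := fun w : G.IL D.N (yy g m 0) => δ (w : G.A)) Bw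
      (Nat.card k ^ (G.d * (e + 2))) ?_).trans ?_
    · intro v _
      exact NG_fib hker hp1 D.N (yy g m 0) hee _ v fun w hw => (Finset.mem_filter.1 hw).2
    · rw [mul_comm]
      exact Nat.mul_le_mul_right _ hT

end Pool.Agent.GBC.Sv
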