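import Pool.Agent.Lib.GBC.S.Base
import Pool.Agent.Lib.GBC.S.Deriv
import Pool.Agent.Lib.GBC.S.DPoly
import Pool.Agent.Lib.HYP.S.Deriv

/-!
Module S.Res of GBC (block S, the sieve). The resultant of the two derivatives, and the number of large
primes which contain it.

PROOFS. `det_mem_M`: the determinant is a sum of products of `N` entries, each entry is in `M y`
(`mul_mem_M`, `1 ∈ M 0`).
`res_mem_M`: compare `HYP.Sv.natDegree_resultant_le`, `HYP.Sv.resultant_degree`: the entries of the Sylvester matrix are `0` or coefficients of `derivative f`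
(`(i + 1) f_(i+1)`, in `M (2 m (2 g + 1)) ≤ M (2 m (2 g + 1) + c)` by `coeff_mem_M`) or of `dA δ f` (`δ f_i`, in
`M (2 m (2 g + 1) + c)` by `hδ`); its size is `natDegree (derivative f) + natDegree (dA δ f) ≤ 4 g + 1`, and
`0 ≤ 2 m (2 g + 1) + c`, so the determinant is in `M ((4 g + 1) (2 m (2 g + 1) + c))` (`det_mem_M`, `M_mono`).
`mem_of_common`: `exists_mul_add_mul_eq_C_resultant` as in `HYP.Sv.dvd_resultant`: modulo `P` `Q` divides the constant `C (res)`,
`R ⧸ P` is a domain, `Q` is not constant: `res = 0` modulo `P`. (`natDegree (derivative f) = 2 g ≠ 0` as `2 g + 1 ≠ 0` in `k`, `derivative_map` for the identity.)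
`res_ne`: as `HYP.Sv.resultant_ne` (`algebraMap G.A K` is injective).
`card_primes`: `∏_(P ∈ s) P` is contained in `R₀ A`.. precisely: the `P ∈ s` are different maximal ideals, so `∏ P = ⨅ P ∋ R₀` (`Ideal.prod_eq_iInf` or
`Finset.prod_dvd_of_coprime`, `Ideal.dvd_span_singleton`), `span {R₀} ≤ ∏ P`, hence
`s.card * b ≤ ∑ degI P = degI (∏ P) ≤ degI (span {R₀}) ≤ d y` (`degI_prod`, `degI_le`, `degI_span_le`; `P ≠ ⊥` by `ne_bot_of_max` in `S.Fib`, or: `0 ≠ R₀ ∈ P`).
-/

set_option autoImplicit false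

open Polynomial

namespace Pool.Agent.GBC.Sv

open Pool.Agent.BSDP Pool.Agent.BSDFF Pool.Agent.HYP Pool.Agent.GBC.Geo

variable {k K : Type} [Field k] [Field K] [Algebra k K] {G : Geo k K} {g : ℕ}

private theorem SRes_prod_mem (G : Geo k K) {ι : Type} (s : Finset ι) (f : ι → K) {y : ℤ}
    (h : ∀ i ∈ s, f i ∈ G.M y) : ∏ i ∈ s, f i ∈ G.M (s.card * y) := by
  classical
  induction s using Finset.induction_on with
  | empty =>
    rw [Finset.prod_empty]
    exact one_mem_M G (by simp)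
  | insert a s ha ih =>
    rw [Finset.prod_insert ha, Finset.card_insert_of_notMem ha]
    have h1 := mul_mem_M G (h a (Finset.mem_insert_self _ _))
      (ih fun i hi => h i (Finset.mem_insert_of_mem hi))
    have e : (((s.card + 1 : ℕ)) : ℤ) * y = y + (s.card : ℤ) * y := by
      push_cast
      ring
    rw [e]
    exact h1

theorem det_mem_M (G : Geo k K) {N : ℕ} {y : ℤ} (M : Matrix (Fin N) (Fin N) G.A)
    (hM : ∀ i j, (M i j : K) ∈ G.M y) : (M.det : K) ∈ G.M (N * y) := by
  have h1 : (M.det : K) = (M.map G.A.val).det := by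
    have h2 := RingHom.map_det (G.A.val : G.A →+* K) M
    exact h2
  rw [h1, Matrix.det_apply]
  refine Submodule.sum_mem _ fun σ _ => ?_
  have h3 : ∏ i, (M.map G.A.val) (σ i) i ∈ G.M (N * y) := by
    have h4 := SRes_prod_mem G (Finset.univ : Finset (Fin N))
      (fun i => (M.map G.A.val) (σ i) i) (y := y) (fun i _ => hM _ _)
    rwa [Finset.card_univ, Fintype.card_fin] at h4
  rcases Int.units_eq_one_or (Equiv.Perm.sign σ) with hs | hs
  · rw [hs, one_smul]
    exact h3
  · rw [hs, Units.neg_smul, one_smul]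
    exact (G.M (N * y)).neg_mem h3

theorem res_mem_M {δ : Derivation k G.A G.A} {c : ℕ}
    (hδ : ∀ (y : ℤ) (a : G.A), (a : K) ∈ G.M y → (δ a : K) ∈ G.M (y + c)) {D : Data G g} {m : ℕ}
    {f : G.A[X]} (hf : Fam₀ D m f) :
    ((resultant (derivative f) (dA δ f) : G.A) : K) ∈ G.M ((4 * g + 1) * (2 * m * (2 * g + 1) + c)) := by
  have hy : (0 : ℤ) ≤ 2 * m * (2 * g + 1) + c := by positivity
  have ha : ∀ i, ((derivative f).coeff i : K) ∈ G.M (2 * m * (2 * g + 1) + c) := by
    intro i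
    rw [coeff_derivative]
    have h1 : ((f.coeff (i + 1) * ((i : G.A) + 1) : G.A) : K) =
        (i + 1) • (f.coeff (i + 1) : K) := by
      push_cast
      rw [nsmul_eq_mul]
      push_cast
      ring
    rw [h1]
    refine nsmul_mem ?_ _
    exact M_mono G (by linarith [(Nat.cast_nonneg c : (0 : ℤ) ≤ c)]) (coeff_mem_M hf (i + 1))
  have hb : ∀ i, ((dA δ f).coeff i : K) ∈ G.M (2 * m * (2 * g + 1) + c) := by
    intro i
    rw [dA_coeff]
    exact hδ _ _ (coeff_mem_M hf i)
  have h0 : ∀ (P : Prop) [Decidable P] (x : G.A), ((x : K) ∈ G.M (2 * m * (2 * g + 1) + c)) →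
      (((if P then x else 0 : G.A)) : K) ∈ G.M (2 * m * (2 * g + 1) + c) := by
    intro P _ x hx
    split_ifs
    · exact hx
    · exact (G.M _).zero_mem
  have h1 := det_mem_M G (y := 2 * m * (2 * g + 1) + c)
    (sylvester (derivative f) (dA δ f) (derivative f).natDegree (dA δ f).natDegree) (by
      intro i j
      unfold sylvester
      rw [Matrix.of_apply]
      induction j using Fin.addCases with
      | left j =>
        rw [Fin.addCases_left]
        exact h0 _ _ (hb _)
      | right j =>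
        rw [Fin.addCases_right]
        exact h0 _ _ (ha _))
  refine M_mono G ?_ h1
  refine mul_le_mul_of_nonneg_right ?_ hy
  have h2 := natDegree_derivative_le f
  have h3 := dA_natDegree_le δ f
  rw [hf.deg] at h2 h3
  have h4 : (derivative f).natDegree + (dA δ f).natDegree ≤ 4 * g + 1 := by omega
  exact_mod_cast h4

theorem mem_of_common (hg : 1 ≤ g) (hn : ((2 * g + 1 : ℕ) : k) ≠ 0) {δ : Derivation k G.A G.A}
    {D : Data G g} {m : ℕ} {f : G.A[X]} (hf : Fam₀ D m f) {P : Ideal G.A} (hP : P.IsMaximal)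
    {Q : (G.A ⧸ P)[X]} (hQ : Q.Monic) (hQ0 : Q.natDegree ≠ 0)
    (h1 : Q ∣ (derivative f).map (Ideal.Quotient.mk P))
    (h2 : Q ∣ (dA δ f).map (Ideal.Quotient.mk P)) : resultant (derivative f) (dA δ f) ∈ P := by
  have hdom : IsDomain (G.A ⧸ P) := (Ideal.Quotient.isDomain_iff_prime P).2 hP.isPrime
  have hn' : ((2 * g + 1 : ℕ) : G.A) ≠ 0 := by
    intro h
    have h3 : algebraMap k G.A ((2 * g + 1 : ℕ) : k) = 0 := by
      rw [map_natCast]
      exact h
    exact hn ((map_eq_zero_iff _ (algebraMap k G.A).injective).1 h3)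
  have hdeg : (derivative f).natDegree = 2 * g := by
    have h3 := (derivative_map hf.monic hf.deg (by omega) (RingHom.id G.A) hn').2
    rw [Polynomial.map_id] at h3
    omega
  obtain ⟨p, q, -, -, h3⟩ := exists_mul_add_mul_eq_C_resultant (derivative f) (dA δ f) le_rfl le_rfl
    (Or.inl (by rw [hdeg]; omega))
  have h4 := congrArg (Polynomial.map (Ideal.Quotient.mk P)) h3
  rw [Polynomial.map_add, Polynomial.map_mul, Polynomial.map_mul, map_C] at h4
  have h5 : Q ∣ C (Ideal.Quotient.mk P (resultant (derivative f) (dA δ f))) := by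
    rw [← h4]
    exact dvd_add (h1.mul_right _) (h2.mul_right _)
  rw [← Ideal.Quotient.eq_zero_iff_mem]
  by_contra h6
  have h7 := natDegree_le_of_dvd h5 (by rwa [Ne, C_eq_zero])
  rw [natDegree_C] at h7
  omega

theorem res_ne {δ : Derivation k G.A G.A} {f : G.A[X]}
    (h : IsCoprime ((derivative f).map (algebraMap G.A K)) ((dA δ f).map (algebraMap G.A K))) :
    resultant (derivative f) (dA δ f) ≠ 0 := by
  intro h0
  have hinj : Function.Injective (algebraMap G.A K) := IsFractionRing.injective G.A K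
  refine resultant_ne_zero _ _ h ?_
  rw [natDegree_map_eq_of_injective hinj, natDegree_map_eq_of_injective hinj,
    resultant_map_map, h0, map_zero]

theorem card_primes {R₀ : G.A} (hR : R₀ ≠ 0) {y : ℤ} (h : (R₀ : K) ∈ G.M y) {b : ℕ}
    (s : Finset (Ideal G.A)) (hs : ∀ P ∈ s, P.IsMaximal ∧ b ≤ G.degI P ∧ R₀ ∈ P) :
    ((s.card * b : ℕ) : ℤ) ≤ G.d * y := by
  have hne : ∀ P ∈ s, P ≠ ⊥ := by
    intro P hP h0
    have h1 := (hs P hP).2.2
    rw [h0, Ideal.mem_bot] at h1
    exact hR h1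
  have hdvd : ∏ P ∈ s, P ∣ Ideal.span {R₀} := by
    refine Finset.prod_dvd_of_coprime ?_ fun P hP => Ideal.dvd_span_singleton.2 (hs P hP).2.2
    intro P hP Q hQ hPQ
    exact Ideal.isCoprime_iff_sup_eq.2
      (Ideal.IsMaximal.coprime_of_ne (hs P hP).1 (hs Q hQ).1 hPQ)
  have hle : Ideal.span {R₀} ≤ ∏ P ∈ s, P := Ideal.le_of_dvd hdvd
  have hspan : Ideal.span {R₀} ≠ ⊥ := by
    rw [Ne, Ideal.span_singleton_eq_bot]
    exact hR
  have h1 := degI_le G hspan hle
  rw [degI_prod G s (fun P => P) hne] at h1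
  have h2 : s.card * b ≤ ∑ P ∈ s, G.degI P := by
    rw [← smul_eq_mul]
    exact Finset.card_nsmul_le_sum _ _ _ fun P hP => (hs P hP).2.1
  have h3 := degI_span_le G hR h
  have h4 : ((s.card * b : ℕ) : ℤ) ≤ (G.degI (Ideal.span {R₀}) : ℤ) := by
    exact_mod_cast h2.trans h1
  exact h4.trans h3

theorem finite_primes {R₀ : G.A} (hR : R₀ ≠ 0) :
    {P : Ideal G.A | P.IsMaximal ∧ R₀ ∈ P}.Finite := by
  have hspan : Ideal.span {R₀} ≠ 0 := by
    rw [Ne, Ideal.zero_eq_bot, Ideal.span_singleton_eq_bot]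
    exact hR
  refine ((Ideal.finite_factors hspan).image fun v => v.asIdeal).subset ?_
  rintro P ⟨hP, hRP⟩
  refine ⟨⟨P, hP.isPrime, ?_⟩, ?_, rfl⟩
  · intro h0
    rw [h0, Ideal.mem_bot] at hRP
    exact hR hRP
  · exact Ideal.dvd_span_singleton.2 hRP

end Pool.Agent.GBC.Sv
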