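import Pool.Agent.Lib.GBC.S.Main
import Pool.Agent.Lib.GBC.P.Pl

/-!
Module S.Sieve of GBC (block S): the sieve, with the hypothesis on the finite places.
-/

set_option autoImplicit false

open Polynomial

namespace Pool.Agent.GBC

open Pool.Agent.BSDP Pool.Agent.BSDFF Pool.Agent.HYP Pool.Agent.GBC.Geo

variable {k K : Type} [Field k] [Field K] [Algebra k K]

private theorem Sieve_set (G : Geo k K) (e : ℕ) :
    {P : Ideal G.A | P.IsMaximal ∧ G.degI P = e} = G.prime '' {w : G.FP | w.1.degree = e} := by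
  ext P
  constructor
  · rintro ⟨h1, h2⟩
    obtain ⟨w, rfl⟩ := G.prime_surj P h1
    refine ⟨w, ?_, rfl⟩
    rw [Set.mem_setOf_eq, ← G.degI_prime w]
    exact h2
  · rintro ⟨w, hw, rfl⟩
    exact ⟨G.prime_max w, by rw [G.degI_prime w]; exact hw⟩

theorem sieve [Finite k] (G : Geo k K) {g : ℕ} (hg : 1 ≤ g) (hp : 2 * g + 1 < ringChar k) :
    ∃ E₀ : ℕ, ∀ D : Data G g, (∀ w : G.FP, w.1.degree ≤ E₀ → D.N ≤ G.prime w) →
      ∃ c : ℝ, 0 < c ∧ ∃ m₀ : ℕ, ∀ m ≥ m₀,
        c * (Nat.card k : ℝ) ^ (G.d * m * (4 * g ^ 2 + 6 * g)) ≤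
          Nat.card {f : G.A[X] // Fam D m f} := by
  obtain ⟨E₀, hE⟩ := Sv.sieve_ideal G hg hp (fun e => by
    rw [Sieve_set]
    refine ⟨(G.finite_deg e).image _, ?_⟩
    rw [Set.ncard_image_of_injective _ (fun _ _ h => G.prime_inj h)]
    rcases Nat.eq_zero_or_pos e with h0 | h0
    · subst h0
      have h1 : {w : G.FP | w.1.degree = 0} = ∅ := by
        rw [Set.eq_empty_iff_forall_notMem]
        intro w hw
        have h2 := G.card_κ w
        have h3 := G.fin_κ w
        rw [Set.mem_setOf_eq] at hw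
        rw [hw, pow_zero] at h2
        have h4 : 1 < Nat.card (G.κ w) := Finite.one_lt_card
        omega
      rw [h1, Set.ncard_empty]
      exact Nat.zero_le _
    · refine le_trans ?_ (G.count_deg e)
      exact Nat.le_mul_of_pos_left _ h0)
  refine ⟨E₀, fun D hD => hE D fun P hP hdeg => ?_⟩
  obtain ⟨w, rfl⟩ := G.prime_surj P hP
  refine hD w ?_
  rw [← G.degI_prime w]
  exact hdeg

end Pool.Agent.GBC
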