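import Pool.Agent.Lib.GBC.Def

/-!
Module S.Sq of GBC (block S, the sieve). The square of the ideal `(P, s)` of `R[x]`, `s` monic.

PROOFS. `mem_sq`: `(I ⊔ J) ^ 2 = I ^ 2 ⊔ I * J ⊔ J ^ 2` (`Ideal.sup_mul`, ...), `I = P.map C`, `J = (s)`;
`I ^ 2 = (P ^ 2).map C` (`Ideal.map_pow`), `Ideal.mem_map_C_iff`; the elements of `I * (s)` are `s * b`,
`b ∈ I` (`Ideal.mem_mul_span_singleton`), the elements of `(s) ^ 2 = (s ^ 2)` are `s ^ 2 * c`.
`mem_sq_of_coeff`: `(P ^ 2).map C = (P.map C) ^ 2 ≤ (P.map C ⊔ (s)) ^ 2`.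
`sq_congr`: `p - s ∈ P.map C`, so the ideals `P.map C ⊔ (p)` and `P.map C ⊔ (s)` are equal.
`sq_unique`: write `u + s v = a + s b + s ^ 2 c` by `mem_sq`. In `(R ⧸ P ^ 2)[x]`:
`u = s (b + s c - v)`; `s` is monic of degree `e > deg u`, so `b + s c - v = 0` and `u = 0`
(`Polynomial.Monic.degree_mul`: the degree of `s * w` is `e + deg w` if `w ≠ 0`). So the coefficients of `u`
are in `P ^ 2`, and `v = b + s c` modulo `P ^ 2`, so modulo `P` `v = s c`, and again `v = 0` modulo `P`.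
`sq_natDegree`: modulo `P` (`R ⧸ P` is a domain) `f = s ^ 2 c`; `f` is monic of degree `n`, `s` monic of degree `e`.
`reg_of_irr`: modulo `P` `f = s ^ 2 c`, `s` monic of positive degree: not irreducible.
-/

set_option autoImplicit false

open Polynomial

namespace Pool.Agent.GBC.Sv

variable {R : Type} [CommRing R]

private theorem Sq_map_zero {I : Ideal R} {a : R[X]} (h : ∀ i, a.coeff i ∈ I) :
    a.map (Ideal.Quotient.mk I) = 0 := by
  ext i
  rw [coeff_map, coeff_zero]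
  exact Ideal.Quotient.eq_zero_iff_mem.2 (h i)

private theorem Sq_coeff {I : Ideal R} {a : R[X]} (h : a.map (Ideal.Quotient.mk I) = 0) (i : ℕ) :
    a.coeff i ∈ I := by
  rw [← Ideal.Quotient.eq_zero_iff_mem, ← coeff_map, h, coeff_zero]

private theorem Sq_uniq {A : Type} [CommRing A] [Nontrivial A] {s u v w : A[X]} (hs : s.Monic)
    (hu : u.degree < s.degree) (h : u + s * v = s * w) : u = 0 ∧ v = w := by
  have h1 := div_modByMonic_unique v u hs ⟨h, hu⟩
  have h2 := div_modByMonic_unique (f := s * w) w 0 hs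
    ⟨by rw [zero_add], by rw [degree_zero]; exact bot_lt_iff_ne_bot.2 (fun h => hs.ne_zero (degree_eq_bot.1 h))⟩
  exact ⟨h1.2.symm.trans h2.2, h1.1.symm.trans h2.1⟩

theorem mem_sq {P : Ideal R} {s f : R[X]}
    (h : f ∈ (P.map (C : R →+* R[X]) ⊔ Ideal.span {s}) ^ 2) :
    ∃ a b c : R[X], (∀ i, a.coeff i ∈ P ^ 2) ∧ (∀ i, b.coeff i ∈ P) ∧
      f = a + s * b + s ^ 2 * c := by
  have h1 : (P.map (C : R →+* R[X]) ⊔ Ideal.span {s}) ^ 2 ≤
      (P.map (C : R →+* R[X])) ^ 2 ⊔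
        Ideal.span {s} * (P.map (C : R →+* R[X]) ⊔ Ideal.span {s}) := by
    rw [pow_two, Ideal.sup_mul, Ideal.mul_sup]
    refine sup_le (sup_le ?_ ?_) le_sup_right
    · rw [← pow_two]
      exact le_sup_left
    · rw [mul_comm]
      exact (Ideal.mul_mono_right le_sup_left).trans le_sup_right
  obtain ⟨a, ha, y, hy, rfl⟩ := Submodule.mem_sup.1 (h1 h)
  obtain ⟨z, hz, rfl⟩ := Ideal.mem_span_singleton_mul.1 hy
  obtain ⟨b, hb, w, hw, rfl⟩ := Submodule.mem_sup.1 hz
  obtain ⟨c, rfl⟩ := Ideal.mem_span_singleton'.1 hw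
  refine ⟨a, b, c, ?_, Ideal.mem_map_C_iff.1 hb, by ring⟩
  rw [← Ideal.map_pow] at ha
  exact Ideal.mem_map_C_iff.1 ha

theorem mem_sq_of_coeff {P : Ideal R} {s f : R[X]} (h : ∀ i, f.coeff i ∈ P ^ 2) :
    f ∈ (P.map (C : R →+* R[X]) ⊔ Ideal.span {s}) ^ 2 := by
  have h1 : f ∈ (P ^ 2).map (C : R →+* R[X]) := Ideal.mem_map_C_iff.2 h
  rw [Ideal.map_pow] at h1
  exact Ideal.pow_right_mono le_sup_left 2 h1

theorem sq_congr {P : Ideal R} {p s : R[X]} (h : ∀ i, (p - s).coeff i ∈ P) :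
    P.map (C : R →+* R[X]) ⊔ Ideal.span {p} = P.map (C : R →+* R[X]) ⊔ Ideal.span {s} := by
  have h1 : p - s ∈ P.map (C : R →+* R[X]) := Ideal.mem_map_C_iff.2 h
  refine le_antisymm (sup_le le_sup_left ?_) (sup_le le_sup_left ?_)
  · rw [Ideal.span_singleton_le_iff_mem]
    have h2 : p = (p - s) + s := by ring
    rw [h2]
    exact Submodule.add_mem_sup h1 (Ideal.mem_span_singleton_self s)
  · rw [Ideal.span_singleton_le_iff_mem]
    have h2 : s = -(p - s) + p := by ring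
    rw [h2]
    exact Submodule.add_mem_sup (neg_mem h1) (Ideal.mem_span_singleton_self p)

theorem sq_unique {P : Ideal R} {s u v : R[X]} {e : ℕ} (hs : s.Monic) (he : s.natDegree = e)
    (hu : u.degree < (e : WithBot ℕ)) (hv : v.degree < (e : WithBot ℕ))
    (h : u + s * v ∈ (P.map (C : R →+* R[X]) ⊔ Ideal.span {s}) ^ 2) :
    (∀ i, u.coeff i ∈ P ^ 2) ∧ ∀ i, v.coeff i ∈ P := by
  obtain ⟨a, b, c, ha, hb, hf⟩ := mem_sq h
  have hdeg : ∀ I : Ideal R, Nontrivial (R ⧸ I) →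
      (s.map (Ideal.Quotient.mk I)).degree = (e : WithBot ℕ) := by
    intro I hI
    rw [degree_eq_natDegree (hs.map _).ne_zero, hs.natDegree_map, he]
  constructor
  · rcases subsingleton_or_nontrivial (R ⧸ P ^ 2) with hn | hn
    · intro i
      rw [Ideal.Quotient.subsingleton_iff.1 hn]
      exact Submodule.mem_top
    · have h1 := congrArg (Polynomial.map (Ideal.Quotient.mk (P ^ 2))) hf
      rw [Polynomial.map_add, Polynomial.map_mul, Polynomial.map_add, Polynomial.map_add,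
        Polynomial.map_mul, Polynomial.map_mul, Polynomial.map_pow, Sq_map_zero ha] at h1
      have h2 := Sq_uniq (u := u.map (Ideal.Quotient.mk (P ^ 2)))
        (v := v.map (Ideal.Quotient.mk (P ^ 2))) (w := b.map (Ideal.Quotient.mk (P ^ 2)) +
        s.map (Ideal.Quotient.mk (P ^ 2)) * c.map (Ideal.Quotient.mk (P ^ 2))) (hs.map _)
        (by rw [hdeg _ hn]; exact lt_of_le_of_lt degree_map_le hu) (by rw [h1]; ring)
      exact fun i => Sq_coeff h2.1 i
  · rcases subsingleton_or_nontrivial (R ⧸ P) with hn | hn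
    · intro i
      rw [Ideal.Quotient.subsingleton_iff.1 hn]
      exact Submodule.mem_top
    · have ha' : ∀ i, a.coeff i ∈ P := fun i => Ideal.pow_le_self two_ne_zero (ha i)
      have h1 := congrArg (Polynomial.map (Ideal.Quotient.mk P)) hf
      rw [Polynomial.map_add, Polynomial.map_mul, Polynomial.map_add, Polynomial.map_add,
        Polynomial.map_mul, Polynomial.map_mul, Polynomial.map_pow, Sq_map_zero ha',
        Sq_map_zero hb] at h1
      have h2 := Sq_uniq (u := u.map (Ideal.Quotient.mk P)) (v := v.map (Ideal.Quotient.mk P))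
        (w := s.map (Ideal.Quotient.mk P) * c.map (Ideal.Quotient.mk P))
        (hs.map _) (by rw [hdeg _ hn]; exact lt_of_le_of_lt degree_map_le hu) (by rw [h1]; ring)
      have h3 := Sq_uniq (u := v.map (Ideal.Quotient.mk P)) (v := 0)
        (w := c.map (Ideal.Quotient.mk P)) (hs.map _)
        (by rw [hdeg _ hn]; exact lt_of_le_of_lt degree_map_le hv)
        (by rw [mul_zero, add_zero]; exact h2.2)
      exact fun i => Sq_coeff h3.1 i

private theorem Sq_modP {P : Ideal R} {s f : R[X]}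
    (h : f ∈ (P.map (C : R →+* R[X]) ⊔ Ideal.span {s}) ^ 2) :
    ∃ c : (R ⧸ P)[X], f.map (Ideal.Quotient.mk P) =
      s.map (Ideal.Quotient.mk P) * (s.map (Ideal.Quotient.mk P) * c) := by
  obtain ⟨a, b, c, ha, hb, hf⟩ := mem_sq h
  have ha' : ∀ i, a.coeff i ∈ P := fun i => Ideal.pow_le_self two_ne_zero (ha i)
  have h1 := congrArg (Polynomial.map (Ideal.Quotient.mk P)) hf
  rw [Polynomial.map_add, Polynomial.map_add, Polynomial.map_mul, Polynomial.map_mul,
    Polynomial.map_pow, Sq_map_zero ha', Sq_map_zero hb] at h1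
  exact ⟨c.map (Ideal.Quotient.mk P), by rw [h1]; ring⟩

theorem sq_natDegree {P : Ideal R} (hP : P.IsPrime) {s f : R[X]} (hs : s.Monic) (hf : f.Monic)
    (h : f ∈ (P.map (C : R →+* R[X]) ⊔ Ideal.span {s}) ^ 2) : 2 * s.natDegree ≤ f.natDegree := by
  obtain ⟨c, hc⟩ := Sq_modP h
  have hf0 : f.map (Ideal.Quotient.mk P) ≠ 0 := (hf.map _).ne_zero
  have hc0 : c ≠ 0 := by
    rintro rfl
    rw [mul_zero, mul_zero] at hc
    exact hf0 hc
  have hs0 : s.map (Ideal.Quotient.mk P) ≠ 0 := (hs.map _).ne_zero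
  have h1 := congrArg natDegree hc
  rw [natDegree_mul hs0 (mul_ne_zero hs0 hc0), natDegree_mul hs0 hc0, hs.natDegree_map,
    hf.natDegree_map] at h1
  omega

theorem reg_of_irr {P : Ideal R} (hP : P.IsPrime) {f : R[X]}
    (h : Irreducible (f.map (Ideal.Quotient.mk P))) : RegI P f := by
  intro p hp hdeg hmem
  obtain ⟨c, hc⟩ := Sq_modP hmem
  have hu : IsUnit (p.map (Ideal.Quotient.mk P)) := by
    rcases h.isUnit_or_isUnit hc with h1 | h1
    · exact h1
    · exact isUnit_of_mul_isUnit_left h1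
  have h1 : p.map (Ideal.Quotient.mk P) = 1 := (hp.map _).eq_one_of_isUnit hu
  have h2 := hp.natDegree_map (Ideal.Quotient.mk P)
  rw [h1, natDegree_one] at h2
  omega

end Pool.Agent.GBC.Sv
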